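import Mathlib

/-!
# A combinatorial vanishing lemma on functions on symmetric groups

If `G : Perm (Fin n) → W` is killed by all antisymmetrizers on `g + 1` positions, then every
linear combination of permutations which acts as zero on `(ℚ^g)^{⊗ n}` kills `G`.
-/

set_option autoImplicit false

namespace Pool.Agent.Q70.CH

open Equiv Finset

variable {n : ℕ}

/-- Permutations supported on the set `P`. -/
def permsOn (P : Finset (Fin n)) : Finset (Perm (Fin n)) :=
  univ.filter fun π => ∀ i, i ∉ P → π i = i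

lemma mem_permsOn {P : Finset (Fin n)} {π : Perm (Fin n)} :
    π ∈ permsOn P ↔ ∀ i, i ∉ P → π i = i := by simp [permsOn]

lemma permsOn_map {P : Finset (Fin n)} {π : Perm (Fin n)} (h : π ∈ permsOn P) {i : Fin n}
    (hi : i ∈ P) : π i ∈ P := by
  by_contra hc
  have h1 := mem_permsOn.1 h _ hc
  have h2 := π.injective h1
  rw [h2] at hc
  exact hc hi

/-- lexicographic comparison -/
def LexLt (σ τ : Perm (Fin n)) : Prop := ∃ i, (∀ j, j < i → σ j = τ j) ∧ σ i < τ i

lemma lexLt_iff (σ τ : Perm (Fin n)) :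
    LexLt σ τ ↔ (toLex (σ : Fin n → Fin n)) < toLex (τ : Fin n → Fin n) := Iff.rfl

lemma exists_first_moved {π : Perm (Fin n)} (h : π ≠ 1) :
    ∃ i, (∀ j, j < i → π j = j) ∧ i < π i := by
  have hne : (univ.filter fun i => π i ≠ i).Nonempty := by
    by_contra hc
    rw [Finset.not_nonempty_iff_eq_empty, Finset.filter_eq_empty_iff] at hc
    apply h
    ext i
    have := hc (Finset.mem_univ i)
    push Not at this
    rw [this]; rfl
  refine ⟨(univ.filter fun i => π i ≠ i).min' hne, ?_, ?_⟩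
  · intro j hj
    by_contra hc
    have := Finset.min'_le (univ.filter fun i => π i ≠ i) j (by simp [hc])
    exact absurd hj (not_lt.2 this)
  · set i := (univ.filter fun i => π i ≠ i).min' hne with hi
    have h1 : π i ≠ i := by
      have := Finset.min'_mem _ hne
      simpa using this
    rcases lt_trichotomy (π i) i with h2 | h2 | h2
    · exfalso
      have h3 : π (π i) = π i := by
        by_contra hc
        have := Finset.min'_le (univ.filter fun i => π i ≠ i) (π i) (by simp [hc])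
        exact absurd h2 (not_lt.2 this)
      exact h1 (π.injective h3)
    · exact absurd h2 h1
    · exact h2

/-- `σ` is decreasing on `P` -/
def DecOn (σ : Perm (Fin n)) (P : Finset (Fin n)) : Prop :=
  ∀ i ∈ P, ∀ j ∈ P, i < j → σ j < σ i

lemma DecOn.mono {σ : Perm (Fin n)} {P Q : Finset (Fin n)} (h : DecOn σ P) (hQ : Q ⊆ P) :
    DecOn σ Q := fun i hi j hj hij => h i (hQ hi) j (hQ hj) hij

lemma lexLt_of_decOn {σ π : Perm (Fin n)} {P : Finset (Fin n)} (hσ : DecOn σ P)
    (hπ : π ∈ permsOn P) (h1 : π ≠ 1) : LexLt (σ * π) σ := by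
  obtain ⟨i, hi, hi'⟩ := exists_first_moved h1
  refine ⟨i, fun j hj => ?_, ?_⟩
  · rw [Perm.mul_apply, hi j hj]
  · rw [Perm.mul_apply]
    have hiP : i ∈ P := by
      by_contra hc
      have := mem_permsOn.1 hπ i hc
      rw [this] at hi'
      exact lt_irrefl _ hi'
    exact hσ i hiP _ (permsOn_map hπ hiP) hi'

/-- `σ` has no decreasing subsequence of length `g + 1`. -/
def Avoids (g : ℕ) (σ : Perm (Fin n)) : Prop := ∀ P : Finset (Fin n), DecOn σ P → P.card ≤ g

/-- length of the longest decreasing subsequence ending at `i` -/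
noncomputable def col (σ : Perm (Fin n)) (i : Fin n) : ℕ := by
  classical
  exact (univ.filter fun P : Finset (Fin n) => DecOn σ P ∧ i ∈ P ∧ ∀ j ∈ P, j ≤ i).sup
    Finset.card

lemma le_col {σ : Perm (Fin n)} {i : Fin n} {P : Finset (Fin n)} (h : DecOn σ P) (hi : i ∈ P)
    (hj : ∀ j ∈ P, j ≤ i) : P.card ≤ col σ i := by
  classical
  unfold col
  exact Finset.le_sup (f := Finset.card) (by simp only [Finset.mem_filter, Finset.mem_univ, true_and]; exact ⟨h, hi, hj⟩)

lemma decOn_singleton (σ : Perm (Fin n)) (i : Fin n) : DecOn σ {i} := by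
  intro a ha b hb hab
  rw [Finset.mem_singleton] at ha hb
  subst ha; subst hb
  exact absurd hab (lt_irrefl _)

lemma one_le_col (σ : Perm (Fin n)) (i : Fin n) : 1 ≤ col σ i := by
  have := le_col (decOn_singleton σ i) (Finset.mem_singleton_self i) (by simp)
  simpa using this

lemma exists_col (σ : Perm (Fin n)) (i : Fin n) :
    ∃ P : Finset (Fin n), DecOn σ P ∧ i ∈ P ∧ (∀ j ∈ P, j ≤ i) ∧ P.card = col σ i := by
  classical
  have hne : (univ.filter fun P : Finset (Fin n) => DecOn σ P ∧ i ∈ P ∧ ∀ j ∈ P, j ≤ i).Nonempty :=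
    ⟨{i}, by simp only [Finset.mem_filter, Finset.mem_univ, true_and]; exact ⟨decOn_singleton σ i, by simp, by simp⟩⟩
  obtain ⟨P, hP, hP'⟩ := Finset.exists_mem_eq_sup _ hne Finset.card
  simp only [Finset.mem_filter, Finset.mem_univ, true_and] at hP
  refine ⟨P, hP.1, hP.2.1, hP.2.2, ?_⟩
  rw [← hP']
  unfold col
  congr

lemma col_lt {σ : Perm (Fin n)} {i j : Fin n} (hij : i < j) (h : σ j < σ i) :
    col σ i < col σ j := by
  classical
  obtain ⟨P, hP, hiP, hle, hc⟩ := exists_col σ i
  have hj : j ∉ P := fun hj => absurd (hle j hj) (not_le.2 hij)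
  have h1 : DecOn σ (insert j P) := by
    intro a ha b hb hab
    rcases Finset.mem_insert.1 ha with rfl | ha'
    · rcases Finset.mem_insert.1 hb with rfl | hb'
      · exact absurd hab (lt_irrefl _)
      · exact absurd (hab.trans_le (hle b hb')) (not_lt.2 hij.le)
    · rcases Finset.mem_insert.1 hb with rfl | hb'
      · rcases (hle a ha').lt_or_eq with h2 | rfl
        · exact h.trans (hP a ha' i hiP h2)
        · exact h
      · exact hP a ha' b hb' hab
  have h2 := le_col h1 (Finset.mem_insert_self j P) (by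
    intro a ha
    rcases Finset.mem_insert.1 ha with rfl | ha'
    · exact le_rfl
    · exact (hle a ha').trans hij.le)
  rw [Finset.card_insert_of_notMem hj] at h2
  omega

lemma col_le {g : ℕ} {σ : Perm (Fin n)} (h : Avoids g σ) (i : Fin n) : col σ i ≤ g := by
  obtain ⟨P, hP, -, -, hc⟩ := exists_col σ i
  rw [← hc]
  exact h P hP

/-- the coloring with values in `Fin g`, for `σ` avoiding decreasing sequences of length `g+1` -/
noncomputable def colF {g : ℕ} {σ : Perm (Fin n)} (h : Avoids g σ) (i : Fin n) : Fin g :=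
  ⟨col σ i - 1, by have := one_le_col σ i; have := col_le h i; omega⟩

lemma lexLt_of_col {g : ℕ} {σ₀ : Perm (Fin n)} (h : Avoids g σ₀) {σ : Perm (Fin n)}
    (hσ : ∀ i, colF h (σ₀⁻¹ (σ i)) = colF h i) (hne : σ ≠ σ₀) : LexLt σ₀ σ := by
  have h1 : σ₀⁻¹ * σ ≠ 1 := by
    intro hc
    apply hne
    rw [inv_mul_eq_one] at hc
    exact hc.symm
  obtain ⟨i, hi, hi'⟩ := exists_first_moved h1
  refine ⟨i, fun j hj => ?_, ?_⟩
  · have := hi j hj
    rw [Perm.mul_apply, Perm.inv_eq_iff_eq] at this
    exact this.symm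
  · have h2 : col σ₀ (σ₀⁻¹ (σ i)) = col σ₀ i := by
      have := congrArg Fin.val (hσ i)
      have h3 := one_le_col σ₀ i
      have h4 := one_le_col σ₀ (σ₀⁻¹ (σ i))
      simp only [colF] at this
      omega
    rw [Perm.mul_apply] at hi'
    by_contra hc
    rw [not_lt] at hc
    have h3 : σ i = σ₀ (σ₀⁻¹ (σ i)) := by simp
    rcases hc.lt_or_eq with h4 | h4
    · rw [h3] at h4
      have := col_lt hi' h4
      omega
    · rw [h4] at hi'
      simp at hi'

/-- The linear map attached to a function on permutations. -/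
def ext {W : Type*} [AddCommGroup W] [Module ℚ W] (G : Perm (Fin n) → W) :
    (Perm (Fin n) → ℚ) →ₗ[ℚ] W where
  toFun a := ∑ σ, a σ • G σ
  map_add' a b := by simp [add_smul, Finset.sum_add_distrib]
  map_smul' r a := by simp [mul_smul, Finset.smul_sum]

lemma ext_apply {W : Type*} [AddCommGroup W] [Module ℚ W] (G : Perm (Fin n) → W)
    (a : Perm (Fin n) → ℚ) : ext G a = ∑ σ, a σ • G σ := rfl

lemma ext_single {W : Type*} [AddCommGroup W] [Module ℚ W] (G : Perm (Fin n) → W)
    (σ : Perm (Fin n)) : ext G (Pi.single σ 1) = G σ := by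
  classical
  rw [ext_apply, Finset.sum_eq_single σ]
  · simp
  · intro τ _ hτ
    rw [Pi.single_eq_of_ne hτ, zero_smul]
  · intro h; exact absurd (Finset.mem_univ σ) h

/-- The evaluation on words: `(c, w) ↦ ∑_{w ∘ σ = c} a σ`. -/
noncomputable def ev (g : ℕ) : (Perm (Fin n) → ℚ) →ₗ[ℚ] ((Fin n → Fin g) × (Fin n → Fin g) → ℚ) where
  toFun a p := ∑ σ, if (fun i => p.2 (σ i)) = p.1 then a σ else 0
  map_add' a b := by
    ext p
    simp only [Pi.add_apply, ← Finset.sum_add_distrib]
    apply Finset.sum_congr rfl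
    intro σ _
    split_ifs <;> simp
  map_smul' r a := by
    ext p
    simp only [Pi.smul_apply, smul_eq_mul, RingHom.id_apply, Finset.mul_sum]
    apply Finset.sum_congr rfl
    intro σ _
    split_ifs <;> simp

lemma ev_apply (g : ℕ) (a : Perm (Fin n) → ℚ) (p : (Fin n → Fin g) × (Fin n → Fin g)) :
    ev g a p = ∑ σ, if (fun i => p.2 (σ i)) = p.1 then a σ else 0 := rfl

lemma ev_single (g : ℕ) (σ : Perm (Fin n)) (p : (Fin n → Fin g) × (Fin n → Fin g)) :
    ev g (Pi.single σ 1) p = if (fun i => p.2 (σ i)) = p.1 then 1 else 0 := by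
  classical
  rw [ev_apply, Finset.sum_eq_single σ]
  · simp
  · intro τ _ hτ
    rw [Pi.single_eq_of_ne hτ, ite_self]
  · intro h; exact absurd (Finset.mem_univ σ) h

/-- the antisymmetrizer on the positions `P`, placed at `σ` -/
noncomputable def asym (σ : Perm (Fin n)) (P : Finset (Fin n)) : Perm (Fin n) → ℚ :=
  ∑ π ∈ permsOn P, ((Perm.sign π : ℤ) : ℚ) • Pi.single (σ * π) 1

/-- The sign-reversing involution `σ ↦ swap p q * σ`. -/
lemma sum_sign_eq_zero {P : Finset (Fin n)} {p q : Fin n} (hp : p ∈ P) (hq : q ∈ P) (hpq : p ≠ q)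
    (C : Perm (Fin n) → Prop) [DecidablePred C] (hC : ∀ π, C π → C (swap p q * π)) :
    ∑ π ∈ permsOn P, (if C π then ((Perm.sign π : ℤ) : ℚ) else 0) = 0 := by
  have hswap : swap p q ∈ permsOn P := by
    rw [mem_permsOn]
    intro i hi
    exact swap_apply_of_ne_of_ne (fun h => hi (h ▸ hp)) (fun h => hi (h ▸ hq))
  have hC' : ∀ π, C π ↔ C (swap p q * π) := by
    intro π
    refine ⟨hC π, fun h => ?_⟩
    have := hC _ h
    rwa [← mul_assoc, swap_mul_self, one_mul] at this
  refine Finset.sum_involution (fun π _ => swap p q * π) ?_ ?_ ?_ ?_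
  · intro π _
    rw [← if_congr (hC' π) rfl rfl]
    split_ifs
    · rw [Perm.sign_mul, Perm.sign_swap hpq]; simp
    · simp
  · intro π _ h hc
    have : swap p q = 1 := by simpa using hc
    exact hpq (swap_eq_one_iff.1 this)
  · intro π hπ
    rw [mem_permsOn] at hπ ⊢
    intro i hi
    rw [Perm.mul_apply, hπ i hi, mem_permsOn.1 hswap i hi]
  · intro π _
    rw [← mul_assoc, swap_mul_self, one_mul]

lemma ev_asym (g : ℕ) (σ : Perm (Fin n)) (P : Finset (Fin n)) (hP : g < P.card) :
    ev g (asym σ P) = 0 := by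
  classical
  ext p
  rw [asym, map_sum, Finset.sum_apply]
  simp only [map_smul, Pi.smul_apply, ev_single, smul_eq_mul, Pi.zero_apply, mul_ite, mul_one,
    mul_zero]
  obtain ⟨i, hi, j, hj, hij, h⟩ := Finset.exists_ne_map_eq_of_card_lt_of_maps_to
    (s := P) (t := (univ : Finset (Fin g))) (by simpa using hP)
    (f := fun i => p.2 (σ i)) (fun _ _ => Finset.mem_univ _)
  refine sum_sign_eq_zero hi hj hij (fun π => (fun l => p.2 ((σ * π) l)) = p.1) ?_
  intro π hπ
  rw [← hπ]
  ext l
  congr 2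
  simp only [Perm.mul_apply]
  have key : ∀ m, p.2 (σ (swap i j m)) = p.2 (σ m) := by
    intro m
    rcases eq_or_ne m i with rfl | h1
    · rw [swap_apply_left]; exact h.symm
    · rcases eq_or_ne m j with rfl | h2
      · rw [swap_apply_right]; exact h
      · rw [swap_apply_of_ne_of_ne h1 h2]
  exact key _

/-- straightening: modulo antisymmetrizers, everything is a combination of avoiders -/
lemma straighten (g : ℕ) (I : Submodule ℚ (Perm (Fin n) → ℚ))
    (hI : ∀ σ P, P.card = g + 1 → asym σ P ∈ I) (σ : Perm (Fin n)) :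
    ∃ b : Perm (Fin n) → ℚ, (∀ τ, b τ ≠ 0 → Avoids g τ) ∧ Pi.single σ 1 - b ∈ I := by
  classical
  have hwf : WellFounded (LexLt : Perm (Fin n) → Perm (Fin n) → Prop) := by
    have : WellFounded (fun a b : Lex (Fin n → Fin n) => a < b) := wellFounded_lt
    exact InvImage.wf (fun σ : Perm (Fin n) => toLex (σ : Fin n → Fin n)) this
  induction σ using hwf.induction with
  | h σ ih =>
    by_cases hσ : Avoids g σ
    · refine ⟨Pi.single σ 1, ?_, by simp⟩
      intro τ hτ
      have : τ = σ := by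
        by_contra hc
        exact hτ (Pi.single_eq_of_ne hc 1)
      rw [this]; exact hσ
    · unfold Avoids at hσ
      push Not at hσ
      obtain ⟨P', hP', hc'⟩ := hσ
      obtain ⟨P, hPP, hc⟩ := Finset.exists_subset_card_eq (s := P') (n := g + 1) (by omega)
      have hP : DecOn σ P := hP'.mono hPP
      have h1 : ∀ π : Perm (Fin n), ∃ b : Perm (Fin n) → ℚ, (π ∈ permsOn P → π ≠ 1 →
          (∀ τ, b τ ≠ 0 → Avoids g τ) ∧ Pi.single (σ * π) 1 - b ∈ I) := by
        intro π
        by_cases hπ : π ∈ permsOn P ∧ π ≠ 1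
        · obtain ⟨b, hb1, hb2⟩ := ih (σ * π) (lexLt_of_decOn hP hπ.1 hπ.2)
          exact ⟨b, fun _ _ => ⟨hb1, hb2⟩⟩
        · exact ⟨0, fun h h' => absurd ⟨h, h'⟩ hπ⟩
      choose b hb using h1
      refine ⟨-∑ π ∈ (permsOn P).erase 1, ((Perm.sign π : ℤ) : ℚ) • b π, ?_, ?_⟩
      · intro τ hτ
        by_contra hc2
        apply hτ
        rw [Pi.neg_apply, Finset.sum_apply, neg_eq_zero]
        apply Finset.sum_eq_zero
        intro π hπ
        rw [Pi.smul_apply, smul_eq_zero]
        right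
        by_contra h3
        rw [Finset.mem_erase] at hπ
        exact hc2 ((hb π hπ.2 hπ.1).1 τ h3)
      · have h2 := hI σ P hc
        have h1mem : (1 : Perm (Fin n)) ∈ permsOn P := by rw [mem_permsOn]; intro i _; rfl
        rw [asym, ← Finset.add_sum_erase _ _ h1mem, Perm.sign_one, mul_one] at h2
        have h3 : Pi.single σ (1:ℚ) - -∑ π ∈ (permsOn P).erase 1, ((Perm.sign π : ℤ) : ℚ) • b π
            = (((1 : ℤˣ) : ℤ) : ℚ) • Pi.single σ (1:ℚ) + ∑ π ∈ (permsOn P).erase 1,
              ((Perm.sign π : ℤ) : ℚ) • Pi.single (σ * π) (1:ℚ)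
              - ∑ π ∈ (permsOn P).erase 1, ((Perm.sign π : ℤ) : ℚ) • (Pi.single (σ * π) (1:ℚ) - b π) := by
          simp only [smul_sub, Finset.sum_sub_distrib]
          simp only [Units.val_one, Int.cast_one, one_smul]
          abel
        rw [h3]
        apply I.sub_mem
        · exact h2
        · apply I.sum_mem
          intro π hπ
          rw [Finset.mem_erase] at hπ
          exact I.smul_mem _ (hb π hπ.2 hπ.1).2

/-- independence of the avoiders -/
lemma indep (g : ℕ) (b : Perm (Fin n) → ℚ) (hb : ∀ τ, b τ ≠ 0 → Avoids g τ) (h : ev g b = 0) :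
    b = 0 := by
  classical
  by_contra hne
  have hne' : (univ.filter fun τ => b τ ≠ 0).Nonempty := by
    by_contra hc
    rw [Finset.not_nonempty_iff_eq_empty, Finset.filter_eq_empty_iff] at hc
    apply hne
    ext τ
    have := hc (Finset.mem_univ τ)
    push Not at this
    rw [this]; rfl
  obtain ⟨σ₀, hσ₀, hmax⟩ := Finset.exists_max_image (univ.filter fun τ => b τ ≠ 0)
    (fun τ : Perm (Fin n) => toLex (τ : Fin n → Fin n)) hne'
  simp only [Finset.mem_filter, Finset.mem_univ, true_and] at hσ₀ hmax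
  have hav := hb σ₀ hσ₀
  have h1 := congrFun h (colF hav, fun i => colF hav (σ₀⁻¹ i))
  rw [ev_apply, Finset.sum_eq_single σ₀] at h1
  · simp at h1
    exact hσ₀ h1
  · intro σ _ hσ
    by_cases hc : (fun i => (colF hav, fun i => colF hav (σ₀⁻¹ i)).2 (σ i)) =
        (colF hav, fun i => colF hav (σ₀⁻¹ i)).1
    · rw [if_pos hc]
      by_contra h2
      have h3 := hmax σ h2
      have h4 := lexLt_of_col hav (σ := σ) (fun i => congrFun hc i) hσ
      rw [lexLt_iff] at h4
      exact absurd h4 (not_lt.2 h3)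
    · rw [if_neg hc]
  · intro hc; exact absurd (Finset.mem_univ σ₀) hc

/-- the kernel of the evaluation is generated by antisymmetrizers -/
lemma ker_ev_le (g : ℕ) (I : Submodule ℚ (Perm (Fin n) → ℚ))
    (hI : ∀ σ P, P.card = g + 1 → asym σ P ∈ I) (a : Perm (Fin n) → ℚ) (ha : ev g a = 0) :
    a ∈ I := by
  classical
  -- it suffices to treat the span of the antisymmetrizers
  let I0 : Submodule ℚ (Perm (Fin n) → ℚ) :=
    Submodule.span ℚ {x | ∃ σ P, P.card = g + 1 ∧ x = asym σ P}
  have hI0 : I0 ≤ I := by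
    rw [Submodule.span_le]
    rintro x ⟨σ, P, hP, rfl⟩
    exact hI σ P hP
  have hker : I0 ≤ LinearMap.ker (ev (n := n) g) := by
    rw [Submodule.span_le]
    rintro x ⟨σ, P, hP, rfl⟩
    exact ev_asym g σ P (by omega)
  choose b hb1 hb2 using straighten (n := n) g I0 (fun σ P hP => Submodule.subset_span ⟨σ, P, hP, rfl⟩)
  have h1 : a = ∑ σ, a σ • Pi.single σ (1 : ℚ) := by
    ext τ
    rw [Finset.sum_apply, Finset.sum_eq_single τ]
    · simp
    · intro σ _ hσ
      rw [Pi.smul_apply, Pi.single_eq_of_ne hσ.symm, smul_zero]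
    · intro hc; exact absurd (Finset.mem_univ τ) hc
  have h2 : a - ∑ σ, a σ • b σ ∈ I0 := by
    have : a - ∑ σ, a σ • b σ = ∑ σ, a σ • (Pi.single σ (1 : ℚ) - b σ) := by
      simp only [smul_sub, Finset.sum_sub_distrib]
      rw [← h1]
    rw [this]
    exact I0.sum_mem fun σ _ => I0.smul_mem _ (hb2 σ)
  have h3 : ∑ σ, a σ • b σ = 0 := by
    apply indep g
    · intro τ hτ
      by_contra hc
      apply hτ
      rw [Finset.sum_apply]
      apply Finset.sum_eq_zero
      intro σ _
      rw [Pi.smul_apply, smul_eq_zero]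
      right
      by_contra h4
      exact hc (hb1 σ τ h4)
    · have h4 := hker h2
      rw [LinearMap.mem_ker, map_sub, ha, zero_sub, neg_eq_zero] at h4
      exact h4
  rw [h3, sub_zero] at h2
  exact hI0 h2

lemma ext_asym {W : Type*} [AddCommGroup W] [Module ℚ W] (G : Perm (Fin n) → W)
    (σ : Perm (Fin n)) (P : Finset (Fin n)) :
    ext G (asym σ P) = ∑ π ∈ permsOn P, ((Perm.sign π : ℤ) : ℚ) • G (σ * π) := by
  rw [asym, map_sum]
  simp only [map_smul, ext_single]

theorem ext_eq_zero {W : Type*} [AddCommGroup W] [Module ℚ W] (g : ℕ) (G : Perm (Fin n) → W)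
    (hG : ∀ σ P, P.card = g + 1 → ∑ π ∈ permsOn P, ((Perm.sign π : ℤ) : ℚ) • G (σ * π) = 0)
    (a : Perm (Fin n) → ℚ) (ha : ev g a = 0) : ext G a = 0 := by
  have := ker_ev_le g (LinearMap.ker (ext G)) (fun σ P hP => by
    rw [LinearMap.mem_ker, ext_asym]; exact hG σ P hP) a ha
  exact this

/-- a generalized inverse -/
lemma exists_geninv {A B : Type*} [AddCommGroup A] [Module ℚ A] [AddCommGroup B] [Module ℚ B]
    (f : A →ₗ[ℚ] B) : ∃ s : B →ₗ[ℚ] A, ∀ a, f (s (f a)) = f a := by
  obtain ⟨s, hs⟩ := f.rangeRestrict.exists_rightInverse_of_surjective f.range_rangeRestrict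
  obtain ⟨s', hs'⟩ := s.exists_extend
  refine ⟨s', fun a => ?_⟩
  have h1 : s' (f a) = s (f.rangeRestrict a) := by
    rw [← hs']; rfl
  rw [h1]
  have h2 := congrArg (fun φ => (φ (f.rangeRestrict a)).1) hs
  exact h2

/-- **Two-variable vanishing lemma** (antisymmetric form). -/
theorem two_var {W : Type*} [AddCommGroup W] [Module ℚ W] (g₁ g₂ : ℕ) (hn : g₁ * g₂ < n)
    (G : Perm (Fin n) → Perm (Fin n) → W)
    (h1 : ∀ σ τ P, P.card = g₁ + 1 → ∑ π ∈ permsOn P, ((Perm.sign π : ℤ) : ℚ) • G (σ * π) τ = 0)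
    (h2 : ∀ σ τ P, P.card = g₂ + 1 → ∑ π ∈ permsOn P, ((Perm.sign π : ℤ) : ℚ) • G σ (τ * π) = 0) :
    ∑ σ, ((Perm.sign σ : ℤ) : ℚ) • G σ σ = 0 := by
  classical
  let B : (Perm (Fin n) → ℚ) → (Perm (Fin n) → ℚ) → W := fun a b => ∑ σ, ∑ τ, (a σ * b τ) • G σ τ
  obtain ⟨s₁, hs₁⟩ := exists_geninv (ev (n := n) g₁)
  obtain ⟨s₂, hs₂⟩ := exists_geninv (ev (n := n) g₂)
  have hB1 : ∀ a a' b, ev g₁ a = ev g₁ a' → B a b = B a' b := by
    intro a a' b h
    have h3 : ext (fun σ => ∑ τ, b τ • G σ τ) (a - a') = 0 := by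
      apply ext_eq_zero g₁
      · intro σ P hP
        have : ∀ π, ((Perm.sign π : ℤ) : ℚ) • ∑ τ, b τ • G (σ * π) τ =
            ∑ τ, b τ • (((Perm.sign π : ℤ) : ℚ) • G (σ * π) τ) := by
          intro π
          rw [Finset.smul_sum]
          apply Finset.sum_congr rfl
          intro τ _
          rw [smul_comm]
        simp only [this]
        rw [Finset.sum_comm]
        apply Finset.sum_eq_zero
        intro τ _
        rw [← Finset.smul_sum, h1 σ τ P hP, smul_zero]
      · rw [map_sub, h, sub_self]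
    rw [map_sub, sub_eq_zero, ext_apply, ext_apply] at h3
    simp only [B, mul_smul]
    simpa only [Finset.smul_sum] using h3
  have hB2 : ∀ a b b', ev g₂ b = ev g₂ b' → B a b = B a b' := by
    intro a b b' h
    have h3 : ∀ σ, ext (fun τ => G σ τ) (b - b') = 0 := by
      intro σ
      apply ext_eq_zero g₂
      · intro τ P hP
        exact h2 σ τ P hP
      · rw [map_sub, h, sub_self]
    simp only [B, mul_smul]
    apply Finset.sum_congr rfl
    intro σ _
    have h4 := h3 σ
    rw [map_sub, sub_eq_zero, ext_apply, ext_apply] at h4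
    rw [← Finset.smul_sum, ← Finset.smul_sum, h4]
  -- express the sum through `B`
  have hBsingle : ∀ σ, B (Pi.single σ 1) (Pi.single σ 1) = G σ σ := by
    intro σ
    simp only [B]
    rw [Finset.sum_eq_single σ, Finset.sum_eq_single σ]
    · simp
    · intro τ _ hτ
      rw [Pi.single_eq_of_ne hτ, mul_zero, zero_smul]
    · intro hc; exact absurd (Finset.mem_univ σ) hc
    · intro τ _ hτ
      apply Finset.sum_eq_zero
      intro ρ _
      rw [Pi.single_eq_of_ne hτ, zero_mul, zero_smul]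
    · intro hc; exact absurd (Finset.mem_univ σ) hc
  have hexp : ∀ σ, G σ σ = ∑ p, ∑ q, ((if (fun i => p.2 (σ i)) = p.1 then (1 : ℚ) else 0) *
      (if (fun i => q.2 (σ i)) = q.1 then (1 : ℚ) else 0)) •
      B (s₁ (Pi.single p 1)) (s₂ (Pi.single q 1)) := by
    intro σ
    rw [← hBsingle σ, hB1 _ (s₁ (ev g₁ (Pi.single σ 1))) _ (hs₁ _).symm,
      hB2 _ _ (s₂ (ev g₂ (Pi.single σ 1))) (hs₂ _).symm]
    have e1 : ev g₁ (Pi.single σ (1 : ℚ)) = ∑ p, (if (fun i => p.2 (σ i)) = p.1 then (1 : ℚ) else 0) •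
        Pi.single p (1 : ℚ) := by
      ext p
      rw [ev_single, Finset.sum_apply, Finset.sum_eq_single p]
      · simp
      · intro q _ hq
        rw [Pi.smul_apply, Pi.single_eq_of_ne hq.symm, smul_zero]
      · intro hc; exact absurd (Finset.mem_univ p) hc
    have e2 : ev g₂ (Pi.single σ (1 : ℚ)) = ∑ p, (if (fun i => p.2 (σ i)) = p.1 then (1 : ℚ) else 0) •
        Pi.single p (1 : ℚ) := by
      ext p
      rw [ev_single, Finset.sum_apply, Finset.sum_eq_single p]
      · simp
      · intro q _ hq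
        rw [Pi.smul_apply, Pi.single_eq_of_ne hq.symm, smul_zero]
      · intro hc; exact absurd (Finset.mem_univ p) hc
    -- bilinearity
    let B1 : (Perm (Fin n) → ℚ) →ₗ[ℚ] (Perm (Fin n) → ℚ) →ₗ[ℚ] W :=
      LinearMap.mk₂ ℚ B
        (by intro a a' b; simp only [B, Pi.add_apply, add_mul, add_smul, Finset.sum_add_distrib])
        (by intro r a b; simp only [B, Pi.smul_apply, smul_eq_mul, Finset.smul_sum, smul_smul, mul_assoc])
        (by intro a b b'; simp only [B, Pi.add_apply, mul_add, add_smul, Finset.sum_add_distrib])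
        (by
          intro r a b
          simp only [B, Pi.smul_apply, smul_eq_mul, Finset.smul_sum, smul_smul]
          apply Finset.sum_congr rfl
          intro x _
          apply Finset.sum_congr rfl
          intro y _
          rw [mul_left_comm])
    change B1 _ _ = _
    rw [e1, e2, map_sum, map_sum, map_sum, LinearMap.sum_apply]
    apply Finset.sum_congr rfl
    intro p _
    rw [map_sum]
    apply Finset.sum_congr rfl
    intro q _
    rw [map_smul, map_smul, map_smul, map_smul, LinearMap.smul_apply, mul_smul]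
    rw [smul_comm]
    rfl
  have : ∑ σ, ((Perm.sign σ : ℤ) : ℚ) • G σ σ = ∑ p : (Fin n → Fin g₁) × (Fin n → Fin g₁),
      ∑ q : (Fin n → Fin g₂) × (Fin n → Fin g₂),
      (∑ σ ∈ permsOn (univ : Finset (Fin n)), (if ((fun i => p.2 (σ i)) = p.1 ∧ (fun i => q.2 (σ i)) = q.1) then
        ((Perm.sign σ : ℤ) : ℚ) else 0)) • B (s₁ (Pi.single p 1)) (s₂ (Pi.single q 1)) := by
    have hu : permsOn (univ : Finset (Fin n)) = univ := by
      ext π; simp [mem_permsOn]
    simp only [hu, Finset.sum_smul]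
    rw [Finset.sum_congr rfl fun σ _ => by rw [hexp σ]]
    simp only [Finset.smul_sum]
    rw [Finset.sum_comm]
    apply Finset.sum_congr rfl
    intro p _
    rw [Finset.sum_comm]
    apply Finset.sum_congr rfl
    intro q _
    apply Finset.sum_congr rfl
    intro σ _
    rw [smul_smul]
    congr 1
    by_cases hA : (fun i => p.2 (σ i)) = p.1 <;> by_cases hB : (fun i => q.2 (σ i)) = q.1 <;>
      simp [hA, hB]
  rw [this]
  apply Finset.sum_eq_zero
  intro p _
  apply Finset.sum_eq_zero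
  intro q _
  obtain ⟨i, _, j, _, hij, h⟩ := Finset.exists_ne_map_eq_of_card_lt_of_maps_to
    (s := (univ : Finset (Fin n))) (t := (univ : Finset (Fin g₁ × Fin g₂))) (by simpa using hn)
    (f := fun i => (p.2 i, q.2 i)) (fun _ _ => Finset.mem_univ _)
  rw [Prod.mk.injEq] at h
  rw [sum_sign_eq_zero (Finset.mem_univ i) (Finset.mem_univ j) hij
    (fun σ => (fun i => p.2 (σ i)) = p.1 ∧ (fun i => q.2 (σ i)) = q.1), zero_smul]
  rintro π ⟨h3, h4⟩
  have key : ∀ {γ : Type} (u : Fin n → γ), u i = u j → ∀ m, u (swap i j m) = u m := by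
    intro γ u hu m
    rcases eq_or_ne m i with rfl | h1
    · rw [swap_apply_left]; exact hu.symm
    · rcases eq_or_ne m j with rfl | h2
      · rw [swap_apply_right]; exact hu
      · rw [swap_apply_of_ne_of_ne h1 h2]
  constructor
  · rw [← h3]; ext l; rw [Perm.mul_apply, key p.2 h.1]
  · rw [← h4]; ext l; rw [Perm.mul_apply, key q.2 h.2]

/-- **Two-variable vanishing lemma** (symmetric form): if `F` is killed by symmetrization over any
`g₁ + 1` positions in the first variable and over any `g₂ + 1` positions in the second variable,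
then the antisymmetrized diagonal sum vanishes as soon as `n > g₁ g₂`. -/
theorem two_var' {W : Type*} [AddCommGroup W] [Module ℚ W] (g₁ g₂ : ℕ) (hn : g₁ * g₂ < n)
    (F : Perm (Fin n) → Perm (Fin n) → W)
    (h1 : ∀ σ τ P, P.card = g₁ + 1 → ∑ π ∈ permsOn P, F (σ * π) τ = 0)
    (h2 : ∀ σ τ P, P.card = g₂ + 1 → ∑ π ∈ permsOn P, F σ (τ * π) = 0) :
    ∑ σ, ((Perm.sign σ : ℤ) : ℚ) • F σ σ = 0 := by
  have key := two_var g₁ g₂ hn (fun σ τ => (((Perm.sign σ : ℤ) : ℚ) * ((Perm.sign τ : ℤ) : ℚ)) • F σ τ)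
    (by
      intro σ τ P hP
      have : ∀ π, ((Perm.sign π : ℤ) : ℚ) • ((((Perm.sign (σ * π) : ℤ) : ℚ) * ((Perm.sign τ : ℤ) : ℚ)) • F (σ * π) τ)
          = (((Perm.sign σ : ℤ) : ℚ) * ((Perm.sign τ : ℤ) : ℚ)) • F (σ * π) τ := by
        intro π
        rw [smul_smul, Perm.sign_mul]
        congr 1
        push_cast
        have : ((Perm.sign π : ℤ) : ℚ) * ((Perm.sign π : ℤ) : ℚ) = 1 := by
          rcases Int.units_eq_one_or (Perm.sign π) with h | h <;> rw [h] <;> norm_num
        linear_combination ((Perm.sign σ : ℤ) : ℚ) * ((Perm.sign τ : ℤ) : ℚ) * this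
      simp only [this]
      rw [← Finset.smul_sum, h1 σ τ P hP, smul_zero])
    (by
      intro σ τ P hP
      have : ∀ π, ((Perm.sign π : ℤ) : ℚ) • ((((Perm.sign σ : ℤ) : ℚ) * ((Perm.sign (τ * π) : ℤ) : ℚ)) • F σ (τ * π))
          = (((Perm.sign σ : ℤ) : ℚ) * ((Perm.sign τ : ℤ) : ℚ)) • F σ (τ * π) := by
        intro π
        rw [smul_smul, Perm.sign_mul]
        congr 1
        push_cast
        have : ((Perm.sign π : ℤ) : ℚ) * ((Perm.sign π : ℤ) : ℚ) = 1 := by
          rcases Int.units_eq_one_or (Perm.sign π) with h | h <;> rw [h] <;> norm_num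
        linear_combination ((Perm.sign σ : ℤ) : ℚ) * ((Perm.sign τ : ℤ) : ℚ) * this
      simp only [this]
      rw [← Finset.smul_sum, h2 σ τ P hP, smul_zero])
  rw [← key]
  apply Finset.sum_congr rfl
  intro σ _
  congr 1
  have : ((Perm.sign σ : ℤ) : ℚ) * ((Perm.sign σ : ℤ) : ℚ) = 1 := by
    rcases Int.units_eq_one_or (Perm.sign σ) with h | h <;> rw [h] <;> norm_num
  rw [this, one_smul]

end Pool.Agent.Q70.CH
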