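import Pool.Agent.Q70.CH.Rie
import Pool.Agent.Q70.CH.Comb

/-!
# Zero-cycles on products of two curves: Voisin's conjecture
-/

set_option autoImplicit false
set_option linter.overlappingInstances false
set_option linter.unusedSectionVars false

namespace Pool.Agent.Q70.CH

open FF Equiv

/-! ### Exterior products of zero-cycles -/

section cross

variable {X : Type} {n : ℕ}

/-- The exterior product `a₁ × ... × a_n` of zero-cycles. -/
noncomputable def cross (a : Fin n → X →₀ ℚ) : (Fin n → X) →₀ ℚ := by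
  classical
  exact ∑ v ∈ Fintype.piFinset (fun i => (a i).support), Finsupp.single v (∏ i, a i (v i))

lemma cross_apply (a : Fin n → X →₀ ℚ) (v : Fin n → X) : cross a v = ∏ i, a i (v i) := by
  classical
  unfold cross
  rw [Finsupp.finsetSum_apply]
  by_cases h : v ∈ Fintype.piFinset (fun i => (a i).support)
  · rw [Finset.sum_eq_single v]
    · rw [Finsupp.single_eq_same]
    · intro w _ hw
      rw [Finsupp.single_eq_of_ne hw.symm]
    · intro hc; exact absurd h hc
  · rw [Finset.sum_eq_zero]
    · rw [Fintype.mem_piFinset] at h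
      push Not at h
      obtain ⟨i, hi⟩ := h
      rw [Finsupp.notMem_support_iff] at hi
      exact (Finset.prod_eq_zero (Finset.mem_univ i) hi).symm
    · intro w hw
      rw [Finsupp.single_eq_of_ne]
      rintro rfl
      exact h hw

lemma cross_perm (a : Fin n → X →₀ ℚ) (σ : Perm (Fin n)) :
    cross (fun i => a (σ i)) = (cross a).mapDomain (fun v i => v (σ i)) := by
  classical
  ext w
  have h1 : w = (fun v : Fin n → X => fun i => v (σ i)) (fun i => w (σ.symm i)) := by
    ext i; simp
  have hinj : Function.Injective (fun v : Fin n → X => fun i => v (σ i)) := by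
    intro v v' h
    ext i
    have := congrFun h (σ.symm i)
    simpa using this
  rw [cross_apply]
  have h2 : (cross a).mapDomain (fun v i => v (σ i)) w = cross a (fun i => w (σ.symm i)) := by
    conv_lhs => rw [h1]
    exact Finsupp.mapDomain_apply hinj (cross a) (fun i => w (σ.symm i))
  rw [h2, cross_apply, ← Equiv.prod_comp σ (fun i => a i (w (σ.symm i)))]
  simp

/-- expansion in one slot -/
lemma cross_slot (a : Fin n → X →₀ ℚ) (i : Fin n) :
    ∃ (s : Finset (Fin n → X)) (c : (Fin n → X) → ℚ),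
      cross a = ∑ q ∈ s, c q • (a i).mapDomain (fun p => Function.update q i p) := by
  classical
  by_cases hne : Nonempty X
  · obtain ⟨x₀⟩ := hne
    let s : Finset (Fin n → X) := Fintype.piFinset (fun j => if j = i then {x₀} else (a j).support)
    refine ⟨s, fun q => ∏ j ∈ Finset.univ.erase i, a j (q j), ?_⟩
    ext v
    rw [cross_apply, Finsupp.finsetSum_apply]
    have hval : ∀ q ∈ s, ((a i).mapDomain (fun p => Function.update q i p)) v =
        if q = Function.update v i x₀ then a i (v i) else 0 := by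
      intro q hq
      have hqi : q i = x₀ := by
        have := (Fintype.mem_piFinset.1 hq) i
        simpa using this
      have hinj : Function.Injective (fun p => Function.update q i p) :=
        Function.update_injective q i
      split_ifs with h
      · have h2 : v = Function.update q i (v i) := by
          rw [h]; ext j
          by_cases hj : j = i
          · subst hj; simp
          · simp [hj]
        conv_lhs => rw [h2]
        exact Finsupp.mapDomain_apply hinj _ _
      · apply Finsupp.mapDomain_of_notMem_range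
        rintro ⟨p, hp⟩
        apply h
        rw [← hp]
        ext j
        by_cases hj : j = i
        · subst hj; simp [hqi]
        · simp [hj]
    have h1 : ∑ q ∈ s, (((∏ j ∈ Finset.univ.erase i, a j (q j)) •
        (a i).mapDomain (fun p => Function.update q i p)) v) =
        ∑ q ∈ s, if q = Function.update v i x₀ then
          (∏ j ∈ Finset.univ.erase i, a j (q j)) * a i (v i) else 0 := by
      apply Finset.sum_congr rfl
      intro q hq
      rw [Finsupp.smul_apply, hval q hq, smul_eq_mul, mul_ite, mul_zero]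
    rw [h1, Finset.sum_ite_eq']
    have h3 : ∏ j ∈ Finset.univ.erase i, a j ((Function.update v i x₀) j) =
        ∏ j ∈ Finset.univ.erase i, a j (v j) := by
      apply Finset.prod_congr rfl
      intro j hj
      rw [Function.update_of_ne (Finset.ne_of_mem_erase hj)]
    split_ifs with h
    · rw [h3, mul_comm, Finset.mul_prod_erase _ (fun j => a j (v j)) (Finset.mem_univ i)]
    · rw [Fintype.mem_piFinset] at h
      push Not at h
      obtain ⟨j, hj⟩ := h
      by_cases hji : j = i
      · subst hji; simp at hj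
      · rw [if_neg hji, Function.update_of_ne hji, Finsupp.notMem_support_iff] at hj
        exact Finset.prod_eq_zero (Finset.mem_univ j) hj
  · refine ⟨∅, fun _ => 0, ?_⟩
    ext v
    exact absurd ⟨v i⟩ hne

end cross

section

variable {k : Type} [Field k] [CharZero k]

lemma ratTriv_map_single {X : Sp k} {α : Type} (z : α →₀ ℚ) (f : α → X.pts) :
    (z.mapDomain f : X.pts →₀ ℚ) = z.sum fun x c => c • Finsupp.single (f x) (1 : ℚ) := by
  unfold Finsupp.mapDomain
  apply Finsupp.sum_congr
  intro x _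
  rw [Finsupp.smul_single, smul_eq_mul, mul_one]

omit [CharZero k] in
lemma curve_const (K : Type) [Field K] [Algebra k K] (P : Place k K) (B : Type) [Field B]
    [Algebra k B] : (fun _ => P) ∈ (curve (k := k) K).mor B :=
  Or.inl ⟨P, fun _ => rfl⟩

end

/-! ### The operators -/

section ops

variable {A B : Type} {n : ℕ}

/-- replace the first coordinate of the `i`-th point by `o` -/
noncomputable def e1 (o : A) (i : Fin n) : Module.End ℚ ((Fin n → A × B) →₀ ℚ) :=
  Finsupp.lmapDomain ℚ ℚ (fun v => Function.update v i (o, (v i).2))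

/-- replace the second coordinate of the `i`-th point by `o` -/
noncomputable def e2 (o : B) (i : Fin n) : Module.End ℚ ((Fin n → A × B) →₀ ℚ) :=
  Finsupp.lmapDomain ℚ ℚ (fun v => Function.update v i ((v i).1, o))

/-- the operator `(1 - e1) (1 - e2)` in the slot `i`. -/
noncomputable def EE (o : A) (o' : B) (i : Fin n) : Module.End ℚ ((Fin n → A × B) →₀ ℚ) :=
  (1 - e1 o i) * (1 - e2 o' i)

/-- the composition of the operators `EE` over a list of slots -/
noncomputable def DD (o : A) (o' : B) (l : List (Fin n)) : Module.End ℚ ((Fin n → A × B) →₀ ℚ) :=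
  (l.map (EE o o')).prod

lemma e1_single (o : A) (i : Fin n) (v : Fin n → A × B) (c : ℚ) :
    e1 o i (Finsupp.single v c) = Finsupp.single (Function.update v i (o, (v i).2)) c :=
  Finsupp.mapDomain_single

lemma e2_single (o : B) (i : Fin n) (v : Fin n → A × B) (c : ℚ) :
    e2 o i (Finsupp.single v c) = Finsupp.single (Function.update v i ((v i).1, o)) c :=
  Finsupp.mapDomain_single

/-- cycles supported on tuples whose `i`-th point has first coordinate `o` -/
noncomputable def U1 (o : A) (i : Fin n) : Submodule ℚ ((Fin n → A × B) →₀ ℚ) :=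
  Submodule.span ℚ {z | ∃ v : Fin n → A × B, (v i).1 = o ∧ z = Finsupp.single v 1}

noncomputable def U2 (o : B) (i : Fin n) : Submodule ℚ ((Fin n → A × B) →₀ ℚ) :=
  Submodule.span ℚ {z | ∃ v : Fin n → A × B, (v i).2 = o ∧ z = Finsupp.single v 1}

lemma EE_single (o : A) (o' : B) (i : Fin n) (v : Fin n → A × B) (c : ℚ) :
    EE o o' i (Finsupp.single v c) = Finsupp.single v c
      - Finsupp.single (Function.update v i ((v i).1, o')) c
      - Finsupp.single (Function.update v i (o, (v i).2)) c
      + Finsupp.single (Function.update v i (o, o')) c := by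
  unfold EE
  rw [Module.End.mul_apply, LinearMap.sub_apply, LinearMap.sub_apply, Module.End.one_apply,
    Module.End.one_apply, e2_single, map_sub, e1_single, e1_single]
  simp only [Function.update_self, Function.update_idem]
  abel

lemma EE_U1 (o : A) (o' : B) (i : Fin n) (z : (Fin n → A × B) →₀ ℚ) (hz : z ∈ U1 o i) :
    EE o o' i z = 0 := by
  have h : U1 o i ≤ LinearMap.ker (EE o o' i) := by
    unfold U1
    rw [Submodule.span_le]
    rintro _ ⟨v, hv, rfl⟩
    rw [SetLike.mem_coe, LinearMap.mem_ker, EE_single, ← hv, Prod.mk.eta, Function.update_eq_self]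
    abel
  exact h hz

lemma EE_U2 (o : A) (o' : B) (i : Fin n) (z : (Fin n → A × B) →₀ ℚ) (hz : z ∈ U2 o' i) :
    EE o o' i z = 0 := by
  have h : U2 o' i ≤ LinearMap.ker (EE o o' i) := by
    unfold U2
    rw [Submodule.span_le]
    rintro _ ⟨v, hv, rfl⟩
    rw [SetLike.mem_coe, LinearMap.mem_ker, EE_single, ← hv, Prod.mk.eta, Function.update_eq_self]
    abel
  exact h hz

lemma EE_U1' (o : A) (o' : B) (i j : Fin n) (hij : i ≠ j) (z : (Fin n → A × B) →₀ ℚ)
    (hz : z ∈ U1 o i) : EE o o' j z ∈ U1 o i := by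
  have h : U1 o i ≤ (U1 o i).comap (EE o o' j) := by
    conv_lhs => unfold U1
    rw [Submodule.span_le]
    rintro _ ⟨v, hv, rfl⟩
    rw [SetLike.mem_coe, Submodule.mem_comap, EE_single]
    have : ∀ w : Fin n → A × B, (w i).1 = o → (Finsupp.single w (1 : ℚ)) ∈ U1 o i :=
      fun w hw => Submodule.subset_span ⟨w, hw, rfl⟩
    refine Submodule.add_mem _ (Submodule.sub_mem _ (Submodule.sub_mem _ (this _ hv) (this _ ?_))
      (this _ ?_)) (this _ ?_)
    all_goals rw [Function.update_of_ne hij, hv]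
  exact h hz

lemma EE_U2' (o : A) (o' : B) (i j : Fin n) (hij : i ≠ j) (z : (Fin n → A × B) →₀ ℚ)
    (hz : z ∈ U2 o' i) : EE o o' j z ∈ U2 o' i := by
  have h : U2 o' i ≤ (U2 o' i).comap (EE o o' j) := by
    conv_lhs => unfold U2
    rw [Submodule.span_le]
    rintro _ ⟨v, hv, rfl⟩
    rw [SetLike.mem_coe, Submodule.mem_comap, EE_single]
    have : ∀ w : Fin n → A × B, (w i).2 = o' → (Finsupp.single w (1 : ℚ)) ∈ U2 o' i :=
      fun w hw => Submodule.subset_span ⟨w, hw, rfl⟩
    refine Submodule.add_mem _ (Submodule.sub_mem _ (Submodule.sub_mem _ (this _ hv) (this _ ?_))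
      (this _ ?_)) (this _ ?_)
    all_goals rw [Function.update_of_ne hij, hv]
  exact h hz

lemma DD_cons (o : A) (o' : B) (j : Fin n) (l : List (Fin n)) (z : (Fin n → A × B) →₀ ℚ) :
    DD o o' (j :: l) z = EE o o' j (DD o o' l z) := by
  unfold DD
  rw [List.map_cons, List.prod_cons, Module.End.mul_apply]

lemma DD_U1_aux (o : A) (o' : B) (i : Fin n) (l : List (Fin n)) :
    (∀ z ∈ U1 (B := B) o i, (i ∉ l → DD o o' l z ∈ U1 o i) ∧ (i ∈ l → DD o o' l z = 0)) := by
  induction l with
  | nil =>
    intro z hz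
    exact ⟨fun _ => hz, fun h => absurd h (List.not_mem_nil)⟩
  | cons j l ih =>
    intro z hz
    refine ⟨fun h => ?_, fun h => ?_⟩
    · rw [List.mem_cons, not_or] at h
      rw [DD_cons]
      exact EE_U1' o o' i j h.1 _ ((ih z hz).1 h.2)
    · rw [DD_cons]
      by_cases hl : i ∈ l
      · rw [(ih z hz).2 hl, map_zero]
      · have hj : i = j := by
          rcases List.mem_cons.1 h with h | h
          · exact h
          · exact absurd h hl
        subst hj
        exact EE_U1 o o' i _ ((ih z hz).1 hl)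

lemma DD_U2_aux (o : A) (o' : B) (i : Fin n) (l : List (Fin n)) :
    (∀ z ∈ U2 (A := A) o' i, (i ∉ l → DD o o' l z ∈ U2 o' i) ∧ (i ∈ l → DD o o' l z = 0)) := by
  induction l with
  | nil =>
    intro z hz
    exact ⟨fun _ => hz, fun h => absurd h (List.not_mem_nil)⟩
  | cons j l ih =>
    intro z hz
    refine ⟨fun h => ?_, fun h => ?_⟩
    · rw [List.mem_cons, not_or] at h
      rw [DD_cons]
      exact EE_U2' o o' i j h.1 _ ((ih z hz).1 h.2)
    · rw [DD_cons]
      by_cases hl : i ∈ l
      · rw [(ih z hz).2 hl, map_zero]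
      · have hj : i = j := by
          rcases List.mem_cons.1 h with h | h
          · exact h
          · exact absurd h hl
        subst hj
        exact EE_U2 o o' i _ ((ih z hz).1 hl)

end ops

/-! ### Products of two curves -/

section prod

variable {k : Type} [Field k] [CharZero k] {K₁ K₂ : Type} [Field K₁] [Field K₂] [Algebra k K₁]
  [Algebra k K₂] {n : ℕ}

/-- zero-cycles rationally equivalent to zero on the `n`-th power of the product of two curves -/
noncomputable def TT (k : Type) [Field k] [CharZero k] (K₁ K₂ : Type) [Field K₁] [Field K₂]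
    [Algebra k K₁] [Algebra k K₂] (n : ℕ) :
    Submodule ℚ ((Fin n → Place k K₁ × Place k K₂) →₀ ℚ) :=
  ratTriv (((curve (k := k) K₁).prod (curve (k := k) K₂)).pow (Fin n))

/-- zero-cycles rationally equivalent to zero on a curve -/
noncomputable def TC (k : Type) [Field k] [CharZero k] (K : Type) [Field K] [Algebra k K] :
    Submodule ℚ (Place k K →₀ ℚ) := ratTriv (curve (k := k) K)

/-- morphisms to a curve -/
def Mc (k : Type) [Field k] (K : Type) [Field K] [Algebra k K] (B : Type) [Field B] [Algebra k B] :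
    Set (Place k B → Place k K) := (curve (k := k) K).mor B

/-- morphisms to a power of a product of curves -/
def Mn (k : Type) [Field k] (K₁ K₂ : Type) [Field K₁] [Field K₂]
    [Algebra k K₁] [Algebra k K₂] (n : ℕ) (B : Type) [Field B] [Algebra k B] :
    Set (Place k B → Fin n → Place k K₁ × Place k K₂) :=
  (((curve (k := k) K₁).prod (curve (k := k) K₂)).pow (Fin n)).mor B

omit [CharZero k] in
lemma mem_Mn {B : Type} [Field B] [Algebra k B] {s : Place k B → Fin n → Place k K₁ × Place k K₂} :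
    s ∈ Mn k K₁ K₂ n B ↔ ∀ i, (fun Q => (s Q i).1) ∈ Mc k K₁ B ∧ (fun Q => (s Q i).2) ∈ Mc k K₂ B :=
  Iff.rfl

omit [CharZero k] in
lemma const_Mc {B : Type} [Field B] [Algebra k B] (P : Place k K₁) :
    (fun _ => P) ∈ Mc k K₁ B := curve_const K₁ P B

omit [CharZero k] in
lemma update_Mn {B : Type} [Field B] [Algebra k B] {s : Place k B → Fin n → Place k K₁ × Place k K₂}
    (hs : s ∈ Mn k K₁ K₂ n B) (i : Fin n) {t : Place k B → Place k K₁} {u : Place k B → Place k K₂}
    (ht : t ∈ Mc k K₁ B) (hu : u ∈ Mc k K₂ B) :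
    (fun Q => Function.update (s Q) i (t Q, u Q)) ∈ Mn k K₁ K₂ n B := by
  rw [mem_Mn] at hs ⊢
  intro j
  rcases eq_or_ne j i with rfl | hj
  · simp only [Function.update_self]
    exact ⟨ht, hu⟩
  · simp only [Function.update_of_ne hj]
    exact hs j

lemma map_TT {F : (Fin n → Place k K₁ × Place k K₂) → (Fin n → Place k K₁ × Place k K₂)}
    (hF : ∀ (B : Type) [Field B] [Algebra k B] (s : Place k B → Fin n → Place k K₁ × Place k K₂),
      s ∈ Mn k K₁ K₂ n B → (fun Q => F (s Q)) ∈ Mn k K₁ K₂ n B)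
    {z : (Fin n → Place k K₁ × Place k K₂) →₀ ℚ} (hz : z ∈ TT k K₁ K₂ n) :
    z.mapDomain F ∈ TT k K₁ K₂ n :=
  mapDomain_mem (X := ((curve (k := k) K₁).prod (curve (k := k) K₂)).pow (Fin n))
    (Y := ((curve (k := k) K₁).prod (curve (k := k) K₂)).pow (Fin n))
    (F := F) (fun B _ _ _ s hs => hF B s hs) hz

lemma map_TC {K : Type} [Field K] [Algebra k K] {F : Place k K → (Fin n → Place k K₁ × Place k K₂)}
    (hF : ∀ (B : Type) [Field B] [Algebra k B] (s : Place k B → Place k K),
      s ∈ Mc k K B → (fun Q => F (s Q)) ∈ Mn k K₁ K₂ n B)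
    {z : Place k K →₀ ℚ} (hz : z ∈ TC k K) :
    z.mapDomain F ∈ TT k K₁ K₂ n :=
  mapDomain_mem (X := curve (k := k) K)
    (Y := ((curve (k := k) K₁).prod (curve (k := k) K₂)).pow (Fin n))
    (F := F) (fun B _ _ _ s hs => hF B s hs) hz

lemma e1_mem (o : Place k K₁) (i : Fin n) {z : (Fin n → Place k K₁ × Place k K₂) →₀ ℚ}
    (hz : z ∈ TT k K₁ K₂ n) : e1 o i z ∈ TT k K₁ K₂ n :=
  map_TT (F := fun v => Function.update v i (o, (v i).2))
    (fun _ _ _ _ hs => update_Mn hs i (const_Mc o) ((mem_Mn.1 hs) i).2) hz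

lemma e2_mem (o : Place k K₂) (i : Fin n) {z : (Fin n → Place k K₁ × Place k K₂) →₀ ℚ}
    (hz : z ∈ TT k K₁ K₂ n) : e2 o i z ∈ TT k K₁ K₂ n :=
  map_TT (F := fun v => Function.update v i ((v i).1, o))
    (fun _ _ _ _ hs => update_Mn hs i ((mem_Mn.1 hs) i).1 (const_Mc o)) hz

lemma EE_mem (o : Place k K₁) (o' : Place k K₂) (i : Fin n)
    {z : (Fin n → Place k K₁ × Place k K₂) →₀ ℚ}
    (hz : z ∈ TT k K₁ K₂ n) : EE o o' i z ∈ TT k K₁ K₂ n := by
  unfold EE
  rw [Module.End.mul_apply, LinearMap.sub_apply, LinearMap.sub_apply, Module.End.one_apply,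
    Module.End.one_apply]
  have h1 := Submodule.sub_mem _ hz (e2_mem o' i hz)
  exact Submodule.sub_mem _ h1 (e1_mem o i h1)

lemma DD_mem (o : Place k K₁) (o' : Place k K₂) (l : List (Fin n))
    {z : (Fin n → Place k K₁ × Place k K₂) →₀ ℚ} (hz : z ∈ TT k K₁ K₂ n) :
    DD o o' l z ∈ TT k K₁ K₂ n := by
  induction l with
  | nil => exact hz
  | cons j l ih =>
    rw [DD_cons]
    exact EE_mem o o' j ih

lemma EE_sub_mem (o : Place k K₁) (o' : Place k K₂) (i : Fin n)
    {z : (Fin n → Place k K₁ × Place k K₂) →₀ ℚ}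
    (h1 : e1 o i z ∈ TT k K₁ K₂ n) (h2 : e2 o' i z ∈ TT k K₁ K₂ n) :
    EE o o' i z - z ∈ TT k K₁ K₂ n := by
  have h3 : EE o o' i z - z = e1 o i (e2 o' i z) - e1 o i z - e2 o' i z := by
    unfold EE
    rw [Module.End.mul_apply, LinearMap.sub_apply, LinearMap.sub_apply, Module.End.one_apply,
      Module.End.one_apply, map_sub]
    abel
  rw [h3]
  exact Submodule.sub_mem _ (Submodule.sub_mem _ (e1_mem o i h2) h1) h2

lemma DD_sub_mem (o : Place k K₁) (o' : Place k K₂) (l : List (Fin n))
    {z : (Fin n → Place k K₁ × Place k K₂) →₀ ℚ}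
    (h1 : ∀ i, e1 o i z ∈ TT k K₁ K₂ n) (h2 : ∀ i, e2 o' i z ∈ TT k K₁ K₂ n) :
    DD o o' l z - z ∈ TT k K₁ K₂ n := by
  induction l with
  | nil =>
    have : DD o o' [] z - z = 0 := by unfold DD; simp
    rw [this]; exact Submodule.zero_mem _
  | cons j l ih =>
    have h3 : DD o o' (j :: l) z - z = EE o o' j (DD o o' l z - z) + (EE o o' j z - z) := by
      rw [DD_cons, map_sub]; abel
    rw [h3]
    exact Submodule.add_mem _ (EE_mem o o' j ih) (EE_sub_mem o o' j (h1 j) (h2 j))

/-- the exterior product of Albanese trivial cycles is killed by `e1` -/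
lemma e1_cross (o : Place k K₁) (i : Fin n) (a : Fin n → (Place k K₁ × Place k K₂) →₀ ℚ)
    (ha : (a i).mapDomain Prod.snd ∈ TC k K₂) :
    e1 o i (cross a) ∈ TT k K₁ K₂ n := by
  obtain ⟨s, c, h⟩ := cross_slot a i
  have h1 : e1 o i (cross a) =
      ∑ q ∈ s, c q • ((a i).mapDomain Prod.snd).mapDomain (fun p => Function.update q i (o, p)) := by
    rw [h, map_sum]
    apply Finset.sum_congr rfl
    intro q _
    rw [map_smul]
    congr 1
    change Finsupp.mapDomain _ (Finsupp.mapDomain _ _) = _
    rw [← Finsupp.mapDomain_comp, ← Finsupp.mapDomain_comp]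
    congr 1
    ext1 p
    simp only [Function.comp, Function.update_self, Function.update_idem]
  rw [h1]
  apply Submodule.sum_mem
  intro q _
  apply Submodule.smul_mem
  exact map_TC (F := fun p => Function.update q i (o, p)) (fun B _ _ s hs =>
    update_Mn (s := fun _ => q) (mem_Mn.2 fun j => ⟨const_Mc _, const_Mc _⟩) i (const_Mc o) hs) ha

lemma e2_cross (o : Place k K₂) (i : Fin n) (a : Fin n → (Place k K₁ × Place k K₂) →₀ ℚ)
    (ha : (a i).mapDomain Prod.fst ∈ TC k K₁) :
    e2 o i (cross a) ∈ TT k K₁ K₂ n := by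
  obtain ⟨s, c, h⟩ := cross_slot a i
  have h1 : e2 o i (cross a) =
      ∑ q ∈ s, c q • ((a i).mapDomain Prod.fst).mapDomain (fun p => Function.update q i (p, o)) := by
    rw [h, map_sum]
    apply Finset.sum_congr rfl
    intro q _
    rw [map_smul]
    congr 1
    change Finsupp.mapDomain _ (Finsupp.mapDomain _ _) = _
    rw [← Finsupp.mapDomain_comp, ← Finsupp.mapDomain_comp]
    congr 1
    ext1 p
    simp only [Function.comp, Function.update_self, Function.update_idem]
  rw [h1]
  apply Submodule.sum_mem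
  intro q _
  apply Submodule.smul_mem
  exact map_TC (F := fun p => Function.update q i (p, o)) (fun B _ _ s hs =>
    update_Mn (s := fun _ => q) (mem_Mn.2 fun j => ⟨const_Mc _, const_Mc _⟩) i hs (const_Mc o)) ha

/-- symmetrization over the positions in `P`, first variable -/
lemma sum_permsOn1 {A B : Type} (P : Finset (Fin n)) (x : Fin n → A) (y : Fin n → B) :
    ∑ π ∈ permsOn P, Finsupp.single (fun i => (x (π i), y i)) (1 : ℚ) =
      (symc (fun i : P => x i)).mapDomain
        (fun w i => (if h : i ∈ P then w ⟨i, h⟩ else x i, y i)) := by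
  classical
  unfold symc
  rw [Finsupp.mapDomain_finsetSum]
  symm
  refine Finset.sum_bij (fun (ρ : Perm P) _ => Perm.ofSubtype ρ) ?_ ?_ ?_ ?_
  · intro ρ _
    rw [mem_permsOn]
    intro i hi
    exact Perm.ofSubtype_apply_of_not_mem ρ hi
  · intro ρ _ ρ' _ h
    exact Perm.ofSubtype_injective h
  · intro π hπ
    rw [mem_permsOn] at hπ
    have h1 : ∀ i, i ∈ P ↔ π i ∈ P := by
      intro i
      constructor
      · intro hi
        exact permsOn_map (mem_permsOn.2 hπ) hi
      · intro hi
        by_contra hc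
        rw [hπ i hc] at hi
        exact hc hi
    refine ⟨Perm.subtypePerm π (fun i => (h1 i).symm), Finset.mem_univ _, ?_⟩
    ext i
    by_cases hi : i ∈ P
    · rw [Perm.ofSubtype_apply_of_mem _ hi]; rfl
    · rw [Perm.ofSubtype_apply_of_not_mem _ hi, hπ i hi]
  · intro ρ _
    rw [Finsupp.mapDomain_single]
    congr 1
    ext1 i
    by_cases hi : i ∈ P
    · simp only [dif_pos hi, Perm.ofSubtype_apply_of_mem _ hi]
    · simp only [dif_neg hi, Perm.ofSubtype_apply_of_not_mem _ hi]

lemma sum_permsOn2 {A B : Type} (P : Finset (Fin n)) (x : Fin n → A) (y : Fin n → B) :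
    ∑ π ∈ permsOn P, Finsupp.single (fun i => (x i, y (π i))) (1 : ℚ) =
      (symc (fun i : P => y i)).mapDomain
        (fun w i => (x i, if h : i ∈ P then w ⟨i, h⟩ else y i)) := by
  classical
  unfold symc
  rw [Finsupp.mapDomain_finsetSum]
  symm
  refine Finset.sum_bij (fun (ρ : Perm P) _ => Perm.ofSubtype ρ) ?_ ?_ ?_ ?_
  · intro ρ _
    rw [mem_permsOn]
    intro i hi
    exact Perm.ofSubtype_apply_of_not_mem ρ hi
  · intro ρ _ ρ' _ h
    exact Perm.ofSubtype_injective h
  · intro π hπ
    rw [mem_permsOn] at hπ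
    have h1 : ∀ i, i ∈ P ↔ π i ∈ P := by
      intro i
      constructor
      · intro hi
        exact permsOn_map (mem_permsOn.2 hπ) hi
      · intro hi
        by_contra hc
        rw [hπ i hc] at hi
        exact hc hi
    refine ⟨Perm.subtypePerm π (fun i => (h1 i).symm), Finset.mem_univ _, ?_⟩
    ext i
    by_cases hi : i ∈ P
    · rw [Perm.ofSubtype_apply_of_mem _ hi]; rfl
    · rw [Perm.ofSubtype_apply_of_not_mem _ hi, hπ i hi]
  · intro ρ _
    rw [Finsupp.mapDomain_single]
    congr 1
    ext1 i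
    by_cases hi : i ∈ P
    · simp only [dif_pos hi, Perm.ofSubtype_apply_of_mem _ hi]
    · simp only [dif_neg hi, Perm.ofSubtype_apply_of_not_mem _ hi]

omit [CharZero k] in
lemma dite_Mc {B : Type} [Field B] [Algebra k B] {P : Finset (Fin n)} (s : Place k B → P → Place k K₁)
    (hs : ∀ i, (fun Q => s Q i) ∈ Mc k K₁ B) (x : Fin n → Place k K₁) (i : Fin n) :
    (fun Q => if h : i ∈ P then s Q ⟨i, h⟩ else x i) ∈ Mc k K₁ B := by
  by_cases hi : i ∈ P
  · simp only [dif_pos hi]
    exact hs ⟨i, hi⟩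
  · simp only [dif_neg hi]
    exact const_Mc _

/-- symmetrization over more than `g₁` positions in the first variable is killed by `DD`. -/
lemma DD_sym1 [IsAlgClosed k] [IsFF k K₁] {g : ℕ} (hg : IsGenus k K₁ g) (o : Place k K₁)
    (o' : Place k K₂) (P : Finset (Fin n)) (hP : P.card = g + 1) (x : Fin n → Place k K₁)
    (y : Fin n → Place k K₂) :
    DD o o' (List.finRange n) (∑ π ∈ permsOn P, Finsupp.single (fun i => (x (π i), y i)) (1 : ℚ)) ∈
      TT k K₁ K₂ n := by
  classical
  have hne : P.Nonempty := Finset.card_pos.1 (by omega)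
  obtain ⟨i₀, hi₀⟩ := hne
  obtain ⟨z, hz0, hz⟩ := exists_move hg (ι := P) (by rw [Fintype.card_coe, hP]; omega)
    (fun i => x i) ⟨i₀, hi₀⟩ o
  let Ψ : (P → Place k K₁) → (Fin n → Place k K₁ × Place k K₂) :=
    fun w i => (if h : i ∈ P then w ⟨i, h⟩ else x i, y i)
  have h1 : (symc z - symc (fun i : P => x i)).mapDomain Ψ ∈ TT k K₁ K₂ n := by
    refine mapDomain_mem (X := (curve (k := k) K₁).pow P)
      (Y := ((curve (k := k) K₁).prod (curve (k := k) K₂)).pow (Fin n)) (F := Ψ) ?_ hz
    intro B _ _ _ s hs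
    change (fun Q => Ψ (s Q)) ∈ Mn k K₁ K₂ n B
    rw [mem_Mn]
    intro i
    exact ⟨dite_Mc s hs x i, const_Mc _⟩
  have h2 : (symc z - symc (fun i : P => x i)).mapDomain Ψ =
      (symc z).mapDomain Ψ - (symc (fun i : P => x i)).mapDomain Ψ :=
    map_sub (Finsupp.lmapDomain ℚ ℚ Ψ) _ _
  have h3 : DD o o' (List.finRange n) ((symc z).mapDomain Ψ) = 0 := by
    unfold symc
    rw [Finsupp.mapDomain_finsetSum, map_sum]
    apply Finset.sum_eq_zero
    intro π _
    rw [Finsupp.mapDomain_single]
    refine (DD_U1_aux o o' (π.symm ⟨i₀, hi₀⟩).1 _ _ (Submodule.subset_span ⟨_, ?_, rfl⟩)).2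
      (List.mem_finRange _)
    simp only [Ψ, dif_pos (π.symm ⟨i₀, hi₀⟩).2, Subtype.coe_eta, Equiv.apply_symm_apply]
    exact hz0
  rw [sum_permsOn1]
  have h4 := DD_mem o o' (List.finRange n) h1
  rw [h2, map_sub, h3, zero_sub] at h4
  exact (Submodule.neg_mem_iff _).1 h4

lemma DD_sym2 [IsAlgClosed k] [IsFF k K₂] {g : ℕ} (hg : IsGenus k K₂ g) (o : Place k K₁)
    (o' : Place k K₂) (P : Finset (Fin n)) (hP : P.card = g + 1) (x : Fin n → Place k K₁)
    (y : Fin n → Place k K₂) :
    DD o o' (List.finRange n) (∑ π ∈ permsOn P, Finsupp.single (fun i => (x i, y (π i))) (1 : ℚ)) ∈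
      TT k K₁ K₂ n := by
  classical
  have hne : P.Nonempty := Finset.card_pos.1 (by omega)
  obtain ⟨i₀, hi₀⟩ := hne
  obtain ⟨z, hz0, hz⟩ := exists_move hg (ι := P) (by rw [Fintype.card_coe, hP]; omega)
    (fun i => y i) ⟨i₀, hi₀⟩ o'
  let Ψ : (P → Place k K₂) → (Fin n → Place k K₁ × Place k K₂) :=
    fun w i => (x i, if h : i ∈ P then w ⟨i, h⟩ else y i)
  have h1 : (symc z - symc (fun i : P => y i)).mapDomain Ψ ∈ TT k K₁ K₂ n := by
    refine mapDomain_mem (X := (curve (k := k) K₂).pow P)
      (Y := ((curve (k := k) K₁).prod (curve (k := k) K₂)).pow (Fin n)) (F := Ψ) ?_ hz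
    intro B _ _ _ s hs
    change (fun Q => Ψ (s Q)) ∈ Mn k K₁ K₂ n B
    rw [mem_Mn]
    intro i
    exact ⟨const_Mc _, dite_Mc s hs y i⟩
  have h2 : (symc z - symc (fun i : P => y i)).mapDomain Ψ =
      (symc z).mapDomain Ψ - (symc (fun i : P => y i)).mapDomain Ψ :=
    map_sub (Finsupp.lmapDomain ℚ ℚ Ψ) _ _
  have h3 : DD o o' (List.finRange n) ((symc z).mapDomain Ψ) = 0 := by
    unfold symc
    rw [Finsupp.mapDomain_finsetSum, map_sum]
    apply Finset.sum_eq_zero
    intro π _
    rw [Finsupp.mapDomain_single]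
    refine (DD_U2_aux o o' (π.symm ⟨i₀, hi₀⟩).1 _ _ (Submodule.subset_span ⟨_, ?_, rfl⟩)).2
      (List.mem_finRange _)
    simp only [Ψ, dif_pos (π.symm ⟨i₀, hi₀⟩).2, Subtype.coe_eta, Equiv.apply_symm_apply]
    exact hz0
  rw [sum_permsOn2]
  have h4 := DD_mem o o' (List.finRange n) h1
  rw [h2, map_sub, h3, zero_sub] at h4
  exact (Submodule.neg_mem_iff _).1 h4

/-- **Voisin's conjecture for products of two curves.** -/
theorem voisin_prod [IsAlgClosed k] [IsFF k K₁] [IsFF k K₂] {g₁ g₂ : ℕ} (hg₁ : IsGenus k K₁ g₁)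
    (hg₂ : IsGenus k K₂ g₂) (hn : g₁ * g₂ < n) (a : Fin n → (Place k K₁ × Place k K₂) →₀ ℚ)
    (h1 : ∀ i, (a i).mapDomain Prod.fst ∈ TC k K₁) (h2 : ∀ i, (a i).mapDomain Prod.snd ∈ TC k K₂) :
    ∑ σ : Perm (Fin n), ((Perm.sign σ : ℤ) : ℚ) • cross (fun i => a (σ i)) ∈ TT k K₁ K₂ n := by
  classical
  obtain ⟨o, -⟩ := exists_place (k := k) (K := K₁)
  obtain ⟨o', -⟩ := exists_place (k := k) (K := K₂)
  rw [← Submodule.ker_mkQ (TT k K₁ K₂ n), LinearMap.mem_ker]
  set q := (TT k K₁ K₂ n).mkQ with hq
  have hq0 : ∀ z, z ∈ TT k K₁ K₂ n → q z = 0 := by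
    intro z hz
    rw [hq, ← LinearMap.mem_ker, Submodule.ker_mkQ]; exact hz
  set l := List.finRange n with hl
  have step : ∀ σ : Perm (Fin n), q (cross (fun i => a (σ i))) =
      ∑ v ∈ (cross a).support, cross a v •
        q (DD o o' l (Finsupp.single (fun i => v (σ i)) 1)) := by
    intro σ
    have h3 : q (cross (fun i => a (σ i))) = q (DD o o' l (cross (fun i => a (σ i)))) := by
      have h4 := hq0 _ (DD_sub_mem o o' l (z := cross (fun i => a (σ i)))
        (fun i => e1_cross o i _ (h2 (σ i))) (fun i => e2_cross o' i _ (h1 (σ i))))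
      rw [map_sub, sub_eq_zero] at h4
      exact h4.symm
    have h5 : cross (fun i => a (σ i)) =
        ∑ v ∈ (cross a).support, cross a v • Finsupp.single (fun i => v (σ i)) (1 : ℚ) := by
      rw [cross_perm]
      unfold Finsupp.mapDomain Finsupp.sum
      apply Finset.sum_congr rfl
      intro v _
      rw [Finsupp.smul_single, smul_eq_mul, mul_one]
    rw [h3, h5, map_sum, map_sum]
    apply Finset.sum_congr rfl
    intro v _
    rw [map_smul, map_smul]
  rw [map_sum]
  have h6 : ∀ σ : Perm (Fin n), q (((Perm.sign σ : ℤ) : ℚ) • cross (fun i => a (σ i))) =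
      ∑ v ∈ (cross a).support, cross a v • (((Perm.sign σ : ℤ) : ℚ) •
        q (DD o o' l (Finsupp.single (fun i => v (σ i)) 1))) := by
    intro σ
    rw [map_smul, step, Finset.smul_sum]
    apply Finset.sum_congr rfl
    intro v _
    rw [smul_comm]
  rw [Finset.sum_congr rfl fun σ _ => h6 σ, Finset.sum_comm]
  apply Finset.sum_eq_zero
  intro v _
  rw [← Finset.smul_sum]
  have key := two_var' g₁ g₂ hn
    (fun σ τ => q (DD o o' l (Finsupp.single (fun i => ((v (σ i)).1, (v (τ i)).2)) 1)))
    (by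
      intro σ τ P hP
      have := hq0 _ (DD_sym1 hg₁ o o' P hP (fun i => (v (σ i)).1) (fun i => (v (τ i)).2))
      rw [map_sum, map_sum] at this
      exact this)
    (by
      intro σ τ P hP
      have := hq0 _ (DD_sym2 hg₂ o o' P hP (fun i => (v (σ i)).1) (fun i => (v (τ i)).2))
      rw [map_sum, map_sum] at this
      exact this)
  have key2 : ∑ σ : Perm (Fin n), ((Perm.sign σ : ℤ) : ℚ) •
        q (DD o o' l (Finsupp.single (fun i => v (σ i)) 1)) = 0 := key
  rw [key2, smul_zero]

end prod

end Pool.Agent.Q70.CH
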