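import Pool.Agent.Q70.CH.Comb

/-!
# The vanishing lemma for arbitrary index sets, and the second exterior power
-/

set_option autoImplicit false

namespace Pool.Agent.Q70.CH

open Equiv Finset

section gen

variable {ι : Type} [Fintype ι] [DecidableEq ι]

/-- Permutations supported on the set `P`. -/
def permsOn' (P : Finset ι) : Finset (Perm ι) :=
  univ.filter fun π => ∀ i, i ∉ P → π i = i

lemma mem_permsOn' {P : Finset ι} {π : Perm ι} :
    π ∈ permsOn' P ↔ ∀ i, i ∉ P → π i = i := by simp [permsOn']

theorem gen_eq_zero {W : Type*} [AddCommGroup W] [Module ℚ W] (g : ℕ) (G : Perm ι → W)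
    (hG : ∀ σ (P : Finset ι), P.card = g + 1 →
      ∑ π ∈ permsOn' P, ((Perm.sign π : ℤ) : ℚ) • G (σ * π) = 0)
    (a : Perm ι → ℚ)
    (ha : ∀ c d : ι → Fin g, ∑ ρ : Perm ι, (if (fun i => d (ρ i)) = c then a ρ else 0) = 0) :
    ∑ ρ, a ρ • G ρ = 0 := by
  classical
  let e : ι ≃ Fin (Fintype.card ι) := Fintype.equivFin ι
  have key := ext_eq_zero (n := Fintype.card ι) g (fun ρ => G (e.symm.permCongr ρ)) (by
    intro σ P hP
    rw [← hG (e.symm.permCongr σ) (P.map e.symm.toEmbedding) (by rw [Finset.card_map, hP])]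
    refine Finset.sum_bij (fun π _ => e.symm.permCongr π) ?_ ?_ ?_ ?_
    · intro π hπ
      rw [mem_permsOn] at hπ
      rw [mem_permsOn']
      intro i hi
      rw [Equiv.permCongr_apply, Equiv.symm_symm, hπ (e i), Equiv.symm_apply_apply]
      intro hc
      apply hi
      rw [Finset.mem_map_equiv]
      exact hc
    · intro π _ π' _ h
      exact (e.symm.permCongr).injective h
    · intro π hπ
      rw [mem_permsOn'] at hπ
      refine ⟨e.permCongr π, ?_, ?_⟩
      · rw [mem_permsOn]
        intro i hi
        rw [Equiv.permCongr_apply, hπ (e.symm i), Equiv.apply_symm_apply]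
        intro hc
        apply hi
        rw [Finset.mem_map_equiv] at hc
        simpa using hc
      · ext i; simp
    · intro π _
      congr 2
      · rw [Equiv.Perm.sign_permCongr]
      · ext i; simp)
    (fun ρ => a (e.symm.permCongr ρ)) (by
      ext p
      rw [ev_apply, Pi.zero_apply]
      refine Eq.trans ?_ (ha (fun i => p.1 (e i)) (fun i => p.2 (e i)))
      refine Fintype.sum_equiv e.symm.permCongr _ _ ?_
      intro ρ
      have : ((fun i => p.2 (ρ i)) = p.1) ↔
          ((fun i => p.2 (e ((e.symm.permCongr ρ) i))) = fun i => p.1 (e i)) := by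
        constructor
        · intro h
          ext1 i
          have := congrFun h (e i)
          simpa using this
        · intro h
          ext1 i
          have := congrFun h (e.symm i)
          simpa using this
      simp only [this])
  rw [ext_apply] at key
  rw [← key]
  symm
  exact Fintype.sum_equiv e.symm.permCongr _ _ (fun ρ => rfl)

end gen

/-! ### Pairs -/

section pairs

variable {n : ℕ}

/-- the transposition of `Fin 2`, or the identity -/
def sw (b : Bool) : Perm (Fin 2) := if b then swap 0 1 else 1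

/-- the sign of `sw` -/
def sgnB (b : Bool) : ℚ := if b then -1 else 1

lemma sign_sw (b : Bool) : ((Perm.sign (sw b) : ℤ) : ℚ) = sgnB b := by
  cases b <;> simp [sw, sgnB]

/-- the permutation `(i, b) ↦ (σ i, ε_i b)` of the positions -/
def wr (σ : Perm (Fin n)) (ε : Fin n → Bool) : Perm (Fin n × Fin 2) :=
  prodCongrLeft (fun _ : Fin 2 => σ) * prodCongrRight (fun i => sw (ε i))

lemma wr_apply (σ : Perm (Fin n)) (ε : Fin n → Bool) (i : Fin n) (b : Fin 2) :
    wr σ ε (i, b) = (σ i, sw (ε i) b) := rfl

lemma sign_wr (σ : Perm (Fin n)) (ε : Fin n → Bool) :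
    ((Perm.sign (wr σ ε) : ℤ) : ℚ) = ∏ i, sgnB (ε i) := by
  unfold wr
  rw [Perm.sign_mul, Perm.sign_prodCongrLeft, Perm.sign_prodCongrRight]
  simp only [Fin.prod_univ_two]
  have h : Perm.sign σ * Perm.sign σ = 1 := Int.units_mul_self _
  rw [h, one_mul]
  push_cast
  apply Finset.prod_congr rfl
  intro i _
  rw [sign_sw]

/-- the pairing on the second exterior power -/
def Del {g : ℕ} (u v : Fin 2 → Fin g) : ℚ :=
  ∑ b : Bool, sgnB b * (if (fun j => u (sw b j)) = v then 1 else 0)

lemma sw_apply_false (j : Fin 2) : sw false j = j := rfl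

lemma sw_true_zero : sw true 0 = 1 := by simp [sw]
lemma sw_true_one : sw true 1 = 0 := by simp [sw]

/-- the pairs `a < b` -/
abbrev Prs (g : ℕ) : Type := {p : Fin g × Fin g // p.1 < p.2}

/-- the coordinates of `u₀ ∧ u₁` -/
def Lam {g : ℕ} (u : Fin 2 → Fin g) (s : Prs g) : ℚ :=
  (if u 0 = s.1.1 ∧ u 1 = s.1.2 then 1 else 0) - (if u 1 = s.1.1 ∧ u 0 = s.1.2 then 1 else 0)

lemma fin2_eq_iff {g : ℕ} (u v : Fin 2 → Fin g) : u = v ↔ u 0 = v 0 ∧ u 1 = v 1 := by
  constructor
  · rintro rfl; exact ⟨rfl, rfl⟩
  · rintro ⟨h0, h1⟩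
    ext1 j
    fin_cases j
    · exact h0
    · exact h1

lemma Del_eq {g : ℕ} (u v : Fin 2 → Fin g) : Del u v = ∑ s : Prs g, Lam u s * Lam v s := by
  classical
  have h1 : Del u v = (if u 0 = v 0 ∧ u 1 = v 1 then 1 else 0) -
      (if u 1 = v 0 ∧ u 0 = v 1 then 1 else 0) := by
    unfold Del
    rw [Fintype.sum_bool]
    simp only [fin2_eq_iff, sw_true_zero, sw_true_one, sw_apply_false, sgnB]
    simp only [if_true, Bool.false_eq_true, if_false]
    ring
  rw [h1]
  rcases lt_trichotomy (v 0) (v 1) with h | h | h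
  · rw [Finset.sum_eq_single (⟨(v 0, v 1), h⟩ : Prs g)]
    · have : Lam v (⟨(v 0, v 1), h⟩ : Prs g) = 1 := by
        unfold Lam
        simp [h.ne, h.ne']
      rw [this, mul_one]
      unfold Lam
      rfl
    · intro s _ hs
      have : Lam v s = 0 := by
        unfold Lam
        rw [if_neg, if_neg, sub_zero]
        · rintro ⟨h2, h3⟩
          have := s.2
          rw [← h2, ← h3] at this
          exact absurd this (not_lt.2 h.le)
        · rintro ⟨h2, h3⟩
          apply hs
          exact Subtype.ext (Prod.ext h2.symm h3.symm)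
      rw [this, mul_zero]
    · intro hc; exact absurd (Finset.mem_univ _) hc
  · rw [Finset.sum_eq_zero]
    · rw [h]; 
      by_cases h2 : u 0 = v 1 ∧ u 1 = v 1
      · rw [if_pos h2, if_pos ⟨h2.2, h2.1⟩, sub_self]
      · rw [if_neg h2, if_neg (fun h3 => h2 ⟨h3.2, h3.1⟩), sub_self]
    · intro s _
      have : Lam v s = 0 := by
        unfold Lam
        rw [h, sub_self]
      rw [this, mul_zero]
  · rw [Finset.sum_eq_single (⟨(v 1, v 0), h⟩ : Prs g)]
    · have : Lam v (⟨(v 1, v 0), h⟩ : Prs g) = -1 := by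
        unfold Lam
        simp [h.ne, h.ne']
      rw [this, mul_neg, mul_one]
      unfold Lam
      simp only [neg_sub]
      congr 1
      · simp only [and_comm]
      · simp only [and_comm]
    · intro s _ hs
      have : Lam v s = 0 := by
        unfold Lam
        rw [if_neg, if_neg, sub_zero]
        · rintro ⟨h2, h3⟩
          apply hs
          exact Subtype.ext (Prod.ext h2.symm h3.symm)
        · rintro ⟨h2, h3⟩
          have := s.2
          rw [← h2, ← h3] at this
          exact absurd this (not_lt.2 h.le)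
      rw [this, mul_zero]
    · intro hc; exact absurd (Finset.mem_univ _) hc

lemma card_prs (g : ℕ) : Fintype.card (Prs g) * 2 = g * (g - 1) := by
  classical
  have h1 : Fintype.card (Prs g) = (Finset.univ.filter fun p : Fin g × Fin g => p.1 < p.2).card :=
    Fintype.card_subtype _
  have h2 : (Finset.univ.filter fun p : Fin g × Fin g => p.1 < p.2).card =
      (Finset.univ.filter fun p : Fin g × Fin g => p.2 < p.1).card := by
    refine Finset.card_bij (fun p _ => (p.2, p.1)) ?_ ?_ ?_
    · intro p hp; simpa using hp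
    · rintro ⟨a, b⟩ _ ⟨c, d⟩ _ h
      simp only [Prod.mk.injEq] at h ⊢
      exact ⟨h.2, h.1⟩
    · rintro ⟨a, b⟩ hp
      exact ⟨(b, a), by simpa using hp, rfl⟩
  have h3 : (Finset.univ.filter fun p : Fin g × Fin g => p.1 = p.2).card = g := by
    have : (Finset.univ.filter fun p : Fin g × Fin g => p.1 = p.2) =
        Finset.univ.image (fun a : Fin g => (a, a)) := by
      ext ⟨a, b⟩
      simp only [Finset.mem_filter, Finset.mem_univ, true_and, Finset.mem_image, Prod.mk.injEq]
      constructor
      · rintro rfl; exact ⟨a, rfl, rfl⟩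
      · rintro ⟨c, rfl, rfl⟩; rfl
    rw [this, Finset.card_image_of_injective _ (fun a b h => (Prod.mk.inj h).1), Finset.card_univ,
      Fintype.card_fin]
  have h4 : (Finset.univ : Finset (Fin g × Fin g)).card = g * g := by
    rw [Finset.card_univ, Fintype.card_prod, Fintype.card_fin]
  have h5 := Finset.card_filter_add_card_filter_not (s := (Finset.univ : Finset (Fin g × Fin g)))
    (fun p => p.1 = p.2)
  have h6 : (Finset.univ.filter fun p : Fin g × Fin g => ¬ p.1 = p.2).card =
      (Finset.univ.filter fun p : Fin g × Fin g => p.1 < p.2).card +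
      (Finset.univ.filter fun p : Fin g × Fin g => p.2 < p.1).card := by
    rw [← Finset.card_union_of_disjoint]
    · congr 1
      ext p
      simp only [Finset.mem_filter, Finset.mem_univ, true_and, Finset.mem_union]
      exact ne_iff_lt_or_gt
    · rw [Finset.disjoint_filter]
      intro p _ h7 h8
      exact absurd h7 (not_lt.2 h8.le)
  rw [h1]
  rw [h3, h4, h6, ← h2] at h5
  have h7 : g * (g - 1) + g = g * g := by
    rcases g with _ | g
    · rfl
    · simp; ring
  omega

/-- A determinant of a product of matrices through a smaller set vanishes. -/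
lemma det_zero_of_factor {m : ℕ} {S : Type} [Fintype S] [DecidableEq S] (hS : Fintype.card S < m)
    (A : Matrix (Fin m) S ℚ) (B : Matrix S (Fin m) ℚ) : (A * B).det = 0 := by
  classical
  by_contra h
  have h1 : (A * B).rank = m := by
    rw [Matrix.rank_of_isUnit _ ((Matrix.isUnit_iff_isUnit_det _).2 (Ne.isUnit h)),
      Fintype.card_fin]
  have h2 : (A * B).rank ≤ A.rank := Matrix.rank_mul_le_left A B
  have h3 : A.rank ≤ Fintype.card S := Matrix.rank_le_card_width A
  omega

/-- The combinatorial identity for the second exterior power. -/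
theorem pair_sum_eq_zero {g : ℕ} (hn : g * (g - 1) < n * 2) (c d : Fin n × Fin 2 → Fin g) :
    ∑ σ : Perm (Fin n), ∑ ε : Fin n → Bool, ((Perm.sign σ : ℤ) : ℚ) * (∏ i, sgnB (ε i)) *
      (if (fun p => d (wr σ ε p)) = c then 1 else 0) = 0 := by
  classical
  have h1 : ∀ σ : Perm (Fin n), ∑ ε : Fin n → Bool, ((Perm.sign σ : ℤ) : ℚ) *
      (∏ i, sgnB (ε i)) * (if (fun p => d (wr σ ε p)) = c then 1 else 0) =
      ((Perm.sign σ : ℤ) : ℚ) * ∏ i, Del (fun b => d (σ i, b)) (fun b => c (i, b)) := by
    intro σ
    have h2 : ∀ ε : Fin n → Bool, (if (fun p => d (wr σ ε p)) = c then (1 : ℚ) else 0) =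
        ∏ i, (if (fun j => d (σ i, sw (ε i) j)) = (fun b => c (i, b)) then (1 : ℚ) else 0) := by
      intro ε
      by_cases h : (fun p => d (wr σ ε p)) = c
      · rw [if_pos h, Finset.prod_eq_one]
        intro i _
        rw [if_pos]
        ext1 j
        exact congrFun h (i, j)
      · rw [if_neg h]
        have : ∃ i, ¬ (fun j => d (σ i, sw (ε i) j)) = (fun b => c (i, b)) := by
          by_contra hc
          push Not at hc
          apply h
          ext1 ⟨i, j⟩
          exact congrFun (hc i) j
        obtain ⟨i, hi⟩ := this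
        exact (Finset.prod_eq_zero (Finset.mem_univ i) (if_neg hi)).symm
    simp only [h2]
    simp only [mul_assoc]
    rw [← Finset.mul_sum]
    congr 1
    simp only [← Finset.prod_mul_distrib]
    unfold Del
    rw [Finset.prod_univ_sum]
    rw [Fintype.piFinset_univ]
  simp only [h1]
  -- a determinant
  let A : Matrix (Fin n) (Prs g) ℚ := fun j s => Lam (fun b => d (j, b)) s
  let B : Matrix (Prs g) (Fin n) ℚ := fun s i => Lam (fun b => c (i, b)) s
  have h3 : (A * B).det = 0 := by
    apply det_zero_of_factor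
    have := card_prs g
    omega
  rw [Matrix.det_apply'] at h3
  rw [← h3]
  apply Finset.sum_congr rfl
  intro σ _
  congr 1
  apply Finset.prod_congr rfl
  intro i _
  rw [Del_eq]
  rfl

/-- **Vanishing lemma for the second exterior power.** -/
theorem pair_vanish {W : Type*} [AddCommGroup W] [Module ℚ W] {g : ℕ} (hn : g * (g - 1) < n * 2)
    (F : Perm (Fin n × Fin 2) → W)
    (hF : ∀ σ (P : Finset (Fin n × Fin 2)), P.card = g + 1 → ∑ π ∈ permsOn' P, F (σ * π) = 0) :
    ∑ σ : Perm (Fin n), ∑ ε : Fin n → Bool, ((Perm.sign σ : ℤ) : ℚ) • F (wr σ ε) = 0 := by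
  classical
  have sq : ∀ ρ : Perm (Fin n × Fin 2), ((Perm.sign ρ : ℤ) : ℚ) * ((Perm.sign ρ : ℤ) : ℚ) = 1 := by
    intro ρ
    rcases Int.units_eq_one_or (Perm.sign ρ) with h | h <;> rw [h] <;> norm_num
  have key := gen_eq_zero (ι := Fin n × Fin 2) g (fun ρ => ((Perm.sign ρ : ℤ) : ℚ) • F ρ) (by
    intro σ P hP
    have : ∀ π, ((Perm.sign π : ℤ) : ℚ) • (((Perm.sign (σ * π) : ℤ) : ℚ) • F (σ * π)) =
        ((Perm.sign σ : ℤ) : ℚ) • F (σ * π) := by
      intro π
      rw [smul_smul, Perm.sign_mul]
      congr 1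
      push_cast
      linear_combination ((Perm.sign σ : ℤ) : ℚ) * sq π
    simp only [this]
    rw [← Finset.smul_sum, hF σ P hP, smul_zero])
    (fun ρ => ∑ σ : Perm (Fin n), ∑ ε : Fin n → Bool,
      if wr σ ε = ρ then ((Perm.sign σ : ℤ) : ℚ) * (∏ i, sgnB (ε i)) else 0) (by
      intro c d
      refine Eq.trans ?_ (pair_sum_eq_zero hn c d)
      have h2 : ∀ ρ : Perm (Fin n × Fin 2), (if (fun i => d (ρ i)) = c then
          ∑ σ : Perm (Fin n), ∑ ε : Fin n → Bool,
            (if wr σ ε = ρ then ((Perm.sign σ : ℤ) : ℚ) * (∏ i, sgnB (ε i)) else 0) else 0) =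
          ∑ σ : Perm (Fin n), ∑ ε : Fin n → Bool, (if wr σ ε = ρ then
            ((Perm.sign σ : ℤ) : ℚ) * (∏ i, sgnB (ε i)) *
              (if (fun i => d (ρ i)) = c then 1 else 0) else 0) := by
        intro ρ
        split_ifs with h
        · apply Finset.sum_congr rfl
          intro σ _
          apply Finset.sum_congr rfl
          intro ε _
          rw [mul_one]
        · rw [Finset.sum_eq_zero]
          intro σ _
          rw [Finset.sum_eq_zero]
          intro ε _
          rw [mul_zero, ite_self]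
      simp only [h2]
      rw [Finset.sum_comm]
      apply Finset.sum_congr rfl
      intro σ _
      rw [Finset.sum_comm]
      apply Finset.sum_congr rfl
      intro ε _
      rw [Finset.sum_ite_eq]
      simp)
  rw [← key]
  simp only [Finset.sum_smul]
  symm
  rw [Finset.sum_comm]
  apply Finset.sum_congr rfl
  intro σ _
  rw [Finset.sum_comm]
  apply Finset.sum_congr rfl
  intro ε _
  rw [Finset.sum_eq_single (wr σ ε)]
  · rw [if_pos rfl, smul_smul]
    congr 1
    have h := sq (wr σ ε)
    rw [sign_wr] at h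
    rw [sign_wr]
    linear_combination ((Perm.sign σ : ℤ) : ℚ) * h
  · intro ρ _ hρ
    rw [if_neg (Ne.symm hρ), zero_smul]
  · intro hc; exact absurd (Finset.mem_univ _) hc

end pairs

end Pool.Agent.Q70.CH
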