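import Pool.Agent.W619.PQ.Approx
import Pool.Agent.Helper386.D5V.Helper399_FF4

/-!
# Places in the normal closure of an extension of function fields

For a finite extension `K / F₀` of function fields over an algebraically closed field `k` of
characteristic zero, a place `Q` of the normal closure `L` over the place `p₀` of `F₀` and the
`[K : F₀]` embeddings of `K` in `L` over `F₀`, the number of embeddings along which `Q` induces a
given place `P` of `K` over `p₀` is the ramification index of `P` over `p₀`.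
-/

set_option autoImplicit false
set_option linter.overlappingInstances false
set_option linter.unusedSectionVars false

namespace Pool.Agent.Q70.CH

open FF IntermediateField Module Pool.Agent.W603.LV Pool.Agent.W619.PQ

section

variable {k : Type} [Field k]

theorem isFF_ext (F₀ L : Type) [Field F₀] [Field L] [Algebra k F₀] [Algebra k L]
    [Algebra F₀ L] [IsScalarTower k F₀ L] [h : IsFF k F₀] [FiniteDimensional F₀ L] : IsFF k L := by
  constructor
  · have := h.ess
    exact Algebra.EssFiniteType.comp k F₀ L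
  · have h1 := trdeg_add_eq k F₀ (A := L)
    rw [h.trdeg, trdeg_eq_zero, add_zero] at h1
    exact h1.symm

/-- restriction of a place along an embedding -/
theorem exists_below {K L : Type} [Field K] [Field L] [Algebra k K] [Algebra k L] [IsFF k K]
    [IsFF k L] (φ : K →ₐ[k] L) (Q : Place k L) :
    ∃ (P : Place k K) (e : ℕ), 0 < e ∧ ∀ f, Q.ord (φ f) = e * P.ord f := by
  let _ : Algebra K L := φ.toRingHom.toAlgebra
  have : IsScalarTower k K L := IsScalarTower.of_algebraMap_eq fun c => (φ.commutes c).symm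
  obtain ⟨t, ht⟩ := IsFF.exists_transcendental (k := k) (K := K)
  have ht' : Transcendental k (φ t) := by
    intro h
    exact ht ((isAlgebraic_algHom_iff φ φ.injective).1 h)
  have h1 := IsFF.isAlgebraic ht'
  have h2 : ∃ f : K, Q.ord (algebraMap K L f) ≠ 0 := by
    by_contra hc
    push Not at hc
    have h3 : k⟮φ t⟯ ≤ φ.fieldRange := by
      rw [adjoin_simple_le_iff]
      exact ⟨t, rfl⟩
    let w' : Place k⟮φ t⟯ L :=
      { ord := Q.ord
        ord_zero := Q.ord_zero
        ord_mul := Q.ord_mul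
        ord_add := Q.ord_add
        ord_const := fun {c} _ => by
          obtain ⟨y, hy⟩ := h3 c.2
          have := hc y
          change Q.ord (φ y) = 0 at this
          rw [show φ y = (c : L) from hy] at this
          exact this
        surj := Q.surj }
    obtain ⟨s, hs0, hs⟩ := w'.surj
    have := w'.ord_eq_zero_of_isAlgebraic hs0 (Algebra.IsAlgebraic.isAlgebraic s)
    omega
  obtain ⟨e, P, he, hP⟩ := exists_over Q h2
  exact ⟨P, e, he, hP⟩

theorem over_unique {K L : Type} [Field K] [Field L] [Algebra k K] [Algebra k L]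
    {g : K → L} {Q : Place k L} {P P' : Place k K} {e e' : ℕ} (he : 0 < e)
    (h : ∀ f, Q.ord (g f) = e * P.ord f) (h' : ∀ f, Q.ord (g f) = e' * P'.ord f) :
    P = P' ∧ e = e' := by
  have key : ∀ f, (e : ℤ) * P.ord f = e' * P'.ord f := fun f => by rw [← h, ← h']
  obtain ⟨t, ht0, ht⟩ := P.surj
  obtain ⟨s, hs0, hs⟩ := P'.surj
  have h1 := key t
  have h2 := key s
  rw [ht, mul_one] at h1
  rw [hs, mul_one] at h2
  have hee : (e : ℤ) = e' := by
    apply Int.dvd_antisymm (by positivity) (by positivity)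
    · exact ⟨_, h2.symm⟩
    · exact ⟨_, h1⟩
  have hee' : e = e' := by exact_mod_cast hee
  refine ⟨?_, hee'⟩
  apply Place.ext
  ext f
  have h3 := key f
  rw [← hee] at h3
  exact mul_left_cancel₀ (by omega) h3

/-- The place induced along an embedding. -/
noncomputable def below {K L : Type} [Field K] [Field L] [Algebra k K] [Algebra k L] [IsFF k K]
    [IsFF k L] (φ : K →ₐ[k] L) (Q : Place k L) : Place k K := (exists_below φ Q).choose

theorem below_spec {K L : Type} [Field K] [Field L] [Algebra k K] [Algebra k L] [IsFF k K]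
    [IsFF k L] (φ : K →ₐ[k] L) (Q : Place k L) :
    ∃ e : ℕ, 0 < e ∧ ∀ f, Q.ord (φ f) = e * (below φ Q).ord f := (exists_below φ Q).choose_spec

theorem ord_prod' {K : Type} [Field K] [Algebra k K] {ι : Type} (s : Finset ι) (v : Place k K)
    (f : ι → K) (hf : ∀ i ∈ s, f i ≠ 0) : v.ord (∏ i ∈ s, f i) = ∑ i ∈ s, v.ord (f i) := by
  classical
  induction s using Finset.induction_on with
  | empty => simp [v.ord_one]
  | insert a s ha ih =>
    rw [Finset.prod_insert ha, Finset.sum_insert ha, v.ord_mul (hf a (Finset.mem_insert_self _ _))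
      (Finset.prod_ne_zero_iff.2 fun i hi => hf i (Finset.mem_insert_of_mem hi)),
      ih fun i hi => hf i (Finset.mem_insert_of_mem hi)]

variable [CharZero k]

/-- The existence of enough conjugates. -/
theorem exists_conjugates (F₀ K : Type) [Field F₀] [Field K] [Algebra k F₀] [Algebra k K]
    [Algebra F₀ K] [IsScalarTower k F₀ K] [IsFF k F₀] [FiniteDimensional F₀ K] :
    ∃ (L : Type) (_ : Field L) (_ : Algebra k L) (_ : Algebra F₀ L) (_ : IsScalarTower k F₀ L)
      (_ : FiniteDimensional F₀ L) (_ : IsFF k L) (J : Type) (_ : Fintype J)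
      (φ : J → (K →ₐ[k] L)), Fintype.card J = finrank F₀ K ∧
      (∀ j f, φ j (algebraMap F₀ K f) = algebraMap F₀ L f) ∧
      (∀ z : K, algebraMap F₀ L (Algebra.norm F₀ z) = ∏ j, φ j z) := by
  have hc : CharZero F₀ := charZero_of_injective_algebraMap (algebraMap k F₀).injective
  let Ω := AlgebraicClosure K
  have h1 : IsScalarTower k F₀ Ω := by
    refine IsScalarTower.of_algebraMap_eq fun c => ?_
    rw [IsScalarTower.algebraMap_apply k K Ω, IsScalarTower.algebraMap_apply k F₀ K,
      ← IsScalarTower.algebraMap_apply F₀ K Ω]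
  let L := IntermediateField.normalClosure F₀ K Ω
  have hfin : FiniteDimensional F₀ L := inferInstance
  have hff : IsFF k L := isFF_ext (k := k) F₀ L
  refine ⟨L, inferInstance, inferInstance, inferInstance, inferInstance, hfin, hff,
    K →ₐ[F₀] Ω, inferInstance,
    fun σ => (σ.codRestrict L.toSubalgebra
      (fun x => σ.fieldRange_le_normalClosure ⟨x, rfl⟩)).restrictScalars k, ?_, ?_, ?_⟩
  · exact AlgHom.card F₀ K Ω
  · intro σ f
    apply Subtype.ext
    change σ (algebraMap F₀ K f) = algebraMap F₀ Ω f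
    exact σ.commutes f
  · intro z
    apply Subtype.ext
    have h2 := Algebra.norm_eq_prod_embeddings F₀ Ω z
    refine Eq.trans ?_ (h2.trans ?_)
    · rfl
    · exact (map_prod L.val (fun σ : K →ₐ[F₀] Ω => (σ.codRestrict L.toSubalgebra
        (fun x => σ.fieldRange_le_normalClosure ⟨x, rfl⟩)) z) Finset.univ).symm

variable [IsAlgClosed k]

/-- The places over a given place, with their ramification indices. -/
theorem exists_fibre {F₀ K : Type} [Field F₀] [Field K] [Algebra k F₀] [Algebra k K]
    [Algebra F₀ K] [IsScalarTower k F₀ K] [IsFF k F₀] [IsFF k K] [FiniteDimensional F₀ K]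
    (p₀ : Place k F₀) : ∃ (S : Finset (Place k K)) (a : Place k K → ℕ),
      (∀ P ∈ S, Over P p₀ (a P)) ∧ (∀ P e, Over P p₀ e → P ∈ S) ∧
      ∑ P ∈ S, a P = finrank F₀ K := by
  classical
  obtain ⟨S, T, h1, h2, h3⟩ := exists_places_over (K' := K) p₀
  have h4 : ∀ P ∈ S, Over P p₀ (T P) := by
    intro P hP
    obtain ⟨e, h, hT, hpos⟩ := h2 P hP
    have h5 : @finrank p₀.RF P.RF _ _ h.resMap.toRingHom.toAlgebra.toModule = 1 := by
      let _ : Algebra p₀.RF P.RF := h.resMap.toRingHom.toAlgebra
      have : IsScalarTower k p₀.RF P.RF :=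
        IsScalarTower.of_algebraMap_eq (fun c => (h.resMap.commutes c).symm)
      have h6 := Module.finrank_mul_finrank k p₀.RF P.RF
      have h7 : finrank k p₀.RF = 1 := deg_one p₀
      have h8 : finrank k P.RF = 1 := deg_one P
      rw [h7, h8, one_mul] at h6
      exact h6
    rw [h5, mul_one] at hT
    rw [hT]; exact h
  exact ⟨S, T, h4, h1, h3⟩

theorem exists_above {K L : Type} [Field K] [Field L] [Algebra k K] [Algebra k L] [IsFF k K]
    [IsFF k L] (φ : K →ₐ[k] L) (hfin : φ.toRingHom.Finite) (P : Place k K) :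
    ∃ Q : Place k L, below φ Q = P := by
  let _ : Algebra K L := φ.toRingHom.toAlgebra
  have : IsScalarTower k K L := IsScalarTower.of_algebraMap_eq fun c => (φ.commutes c).symm
  have : FiniteDimensional K L := hfin
  obtain ⟨S, a, h1, -, h3⟩ := exists_fibre (K := L) P
  have hpos : 0 < finrank K L := finrank_pos
  obtain ⟨Q, hQ⟩ : S.Nonempty := by
    rw [Finset.nonempty_iff_ne_empty]
    rintro rfl
    rw [Finset.sum_empty] at h3
    omega
  refine ⟨Q, ?_⟩
  obtain ⟨e, he, h⟩ := below_spec φ Q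
  exact (over_unique he h (h1 Q hQ).2).1

open Classical in
/-- **Counting lemma.** -/
theorem card_below {F₀ K L : Type} [Field F₀] [Field K] [Field L] [Algebra k F₀] [Algebra k K]
    [Algebra k L] [Algebra F₀ K] [Algebra F₀ L] [IsScalarTower k F₀ K] [IsScalarTower k F₀ L]
    [IsFF k F₀] [IsFF k K] [IsFF k L] [FiniteDimensional F₀ K] [FiniteDimensional F₀ L]
    {J : Type} [Fintype J] (φ : J → (K →ₐ[k] L)) (hJ : Fintype.card J = finrank F₀ K)
    (hφ : ∀ j f, φ j (algebraMap F₀ K f) = algebraMap F₀ L f)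
    (hN : ∀ z : K, algebraMap F₀ L (Algebra.norm F₀ z) = ∏ j, φ j z)
    (Q : Place k L) (p₀ : Place k F₀) (e₀ : ℕ) (hQ : Over Q p₀ e₀) (P : Place k K) (a : ℕ)
    (hP : Over P p₀ a) :
    (Finset.univ.filter fun j => below (φ j) Q = P).card = a := by
  obtain ⟨S, r, hr1, hr2, hr3⟩ := exists_fibre (K := K) p₀
  -- the functions `z P`
  have hz : ∀ P : Place k K, ∃ z : K, P ∈ S → z ≠ 0 ∧ P.ord z = 1 ∧ ∀ P' ∈ S, P' ≠ P → P'.ord z = 0 := by
    intro P
    obtain ⟨t, ht0, ht⟩ := P.surj
    obtain ⟨y, hy⟩ : ∃ y : K, ∀ P' ∈ S, Ge P' 2 (y - (if P' = P then t else 1)) := by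
      choose b hb1 hb2 using fun P' : Place k K => approx_one (S.erase P') P'
        (Finset.notMem_erase P' S) (if P' = P then t else 1) 2
      refine ⟨∑ P' ∈ S, b P', fun P' hP' => ?_⟩
      rw [← Finset.add_sum_erase _ _ hP']
      have h1 : b P' + ∑ Q ∈ S.erase P', b Q - (if P' = P then t else 1)
          = (b P' - (if P' = P then t else 1)) + ∑ Q ∈ S.erase P', b Q := by ring
      rw [h1]
      refine (hb1 P').add (Ge.sum _ _ fun Q hQ => ?_)
      rw [Finset.mem_erase] at hQ
      exact hb2 Q P' (Finset.mem_erase.2 ⟨hQ.1.symm, hP'⟩)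
    have key : ∀ (P' : Place k K) (c : K), c ≠ 0 → P'.ord c < 2 → Ge P' 2 (y - c) →
        y ≠ 0 ∧ P'.ord y = P'.ord c := by
      intro P' c hc hc2 h
      rcases h with h | h
      · rw [sub_eq_zero] at h
        rw [h]
        exact ⟨hc, rfl⟩
      · by_cases hz : y - c = 0
        · rw [sub_eq_zero] at hz
          rw [hz]
          exact ⟨hc, rfl⟩
        have h1 := P'.ord_add_eq hc hz (by omega)
        rwa [add_sub_cancel] at h1
    refine ⟨y, fun hPS => ?_⟩
    have h1 := hy P hPS
    rw [if_pos rfl] at h1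
    obtain ⟨hy0, hy1⟩ := key P t ht0 (by omega) h1
    refine ⟨hy0, by rw [hy1, ht], fun P' hP' hne => ?_⟩
    have h2 := hy P' hP'
    rw [if_neg hne] at h2
    rw [(key P' 1 one_ne_zero (by rw [P'.ord_one]; norm_num) h2).2, P'.ord_one]
  choose z hz using hz
  -- every induced place lies over `p₀`
  have hS : ∀ (Q : Place k L) (e₀ : ℕ), Over Q p₀ e₀ → ∀ j, below (φ j) Q ∈ S ∧
      ∃ e : ℕ, 0 < e ∧ e * r (below (φ j) Q) = e₀ ∧ ∀ f, Q.ord (φ j f) = e * (below (φ j) Q).ord f := by
    intro Q e₀ hQ j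
    obtain ⟨e, he, h⟩ := below_spec (φ j) Q
    obtain ⟨p', a', ha', hp'⟩ := exists_below (IsScalarTower.toAlgHom k F₀ K) (below (φ j) Q)
    have h1 : ∀ f, Q.ord (algebraMap F₀ L f) = ((e * a' : ℕ) : ℤ) * p'.ord f := by
      intro f
      rw [← hφ j f, h]
      have := hp' f
      change (below (φ j) Q).ord (algebraMap F₀ K f) = _ at this
      rw [this]; push_cast; ring
    obtain ⟨h2, h3⟩ := over_unique hQ.1 hQ.2 h1
    subst h2
    have h4 : Over (below (φ j) Q) p₀ a' := ⟨ha', hp'⟩
    have h5 := hr2 _ _ h4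
    have h6 := hr1 _ h5
    have h7 := (over_unique h4.1 h4.2 h6.2).2
    refine ⟨h5, e, he, ?_, h⟩
    rw [← h7, h3]
  -- the multiplicities
  have hm : ∀ (Q : Place k L) (e₀ : ℕ), Over Q p₀ e₀ → ∀ P ∈ S,
      ((Finset.univ.filter fun j => below (φ j) Q = P).card : ℤ) =
        r P * p₀.ord (Algebra.norm F₀ (z P)) := by
    intro Q e₀ hQ P hPS
    obtain ⟨hz0, hz1, hz2⟩ := hz P hPS
    have h1 := hQ.2 (Algebra.norm F₀ (z P))
    rw [hN, ord_prod' _ _ _ fun j _ => by simpa using hz0] at h1
    have h2 : ∀ j, (r P : ℤ) * Q.ord (φ j (z P)) = if below (φ j) Q = P then (e₀ : ℤ) else 0 := by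
      intro j
      obtain ⟨hj, e, he, her, h⟩ := hS Q e₀ hQ j
      rw [h]
      split_ifs with hc
      · rw [hc, hz1, ← her, hc]; push_cast; ring
      · rw [hz2 _ hj hc]; ring
    have h3 : (r P : ℤ) * ∑ j, Q.ord (φ j (z P)) =
        ((Finset.univ.filter fun j => below (φ j) Q = P).card : ℤ) * e₀ := by
      rw [Finset.mul_sum, Finset.sum_congr rfl fun j _ => h2 j, ← Finset.sum_filter,
        Finset.sum_const, nsmul_eq_mul]
    rw [h1] at h3
    have h4 : (e₀ : ℤ) ≠ 0 := by have := hQ.1; omega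
    apply mul_right_cancel₀ h4
    rw [← h3]; ring
  -- the orders of the norms
  have hν : ∀ P ∈ S, 1 ≤ p₀.ord (Algebra.norm F₀ (z P)) := by
    intro P hPS
    have hJ0 : 0 < Fintype.card J := by rw [hJ]; exact finrank_pos
    obtain ⟨j⟩ : Nonempty J := Fintype.card_pos_iff.1 hJ0
    have hfin : (φ j).toRingHom.Finite := by
      let _ : Algebra K L := (φ j).toRingHom.toAlgebra
      have : IsScalarTower F₀ K L := IsScalarTower.of_algebraMap_eq fun c => (hφ j c).symm
      exact Module.Finite.of_restrictScalars_finite F₀ K L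
    obtain ⟨Q', hQ'⟩ := exists_above (φ j) hfin P
    obtain ⟨e, he, h⟩ := below_spec (φ j) Q'
    have hPo := hr1 P hPS
    have hO : Over Q' p₀ (e * r P) := by
      refine ⟨Nat.mul_pos he hPo.1, fun f => ?_⟩
      rw [← hφ j f, h, hQ', hPo.2]
      push_cast; ring
    have h1 := hm Q' _ hO P hPS
    have h2 : 0 < (Finset.univ.filter fun j => below (φ j) Q' = P).card := by
      rw [Finset.card_pos]
      exact ⟨j, by simp [hQ']⟩
    have h3 : (0 : ℤ) < r P := by have := hPo.1; exact_mod_cast this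
    by_contra hc
    push Not at hc
    have h4 : (r P : ℤ) * p₀.ord (Algebra.norm F₀ (z P)) ≤ 0 :=
      mul_nonpos_of_nonneg_of_nonpos h3.le (by omega)
    omega
  -- summing up
  have hsum : ∑ P ∈ S, (r P : ℤ) * (p₀.ord (Algebra.norm F₀ (z P)) - 1) = 0 := by
    have h1 : ∑ P ∈ S, (Finset.univ.filter fun j => below (φ j) Q = P).card = Fintype.card J := by
      rw [← Finset.card_univ]
      exact (Finset.card_eq_sum_card_fiberwise fun j _ => (hS Q e₀ hQ j).1).symm
    have h2 : ∑ P ∈ S, ((r P : ℤ) * p₀.ord (Algebra.norm F₀ (z P))) = Fintype.card J := by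
      rw [← h1]
      push_cast
      exact Finset.sum_congr rfl fun P hP => (hm Q e₀ hQ P hP).symm
    have h3 : ∑ P ∈ S, (r P : ℤ) = Fintype.card J := by
      rw [hJ, ← hr3]; push_cast; rfl
    simp only [mul_sub, mul_one, Finset.sum_sub_distrib]
    rw [h2, h3, sub_self]
  have hone : ∀ P ∈ S, p₀.ord (Algebra.norm F₀ (z P)) = 1 := by
    intro P hPS
    have h1 := (Finset.sum_eq_zero_iff_of_nonneg (fun P' hP' => mul_nonneg (Int.natCast_nonneg (r P'))
      (by have := hν P' hP'; omega))).1 hsum P hPS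
    have h3 : (r P : ℤ) ≠ 0 := by have := (hr1 P hPS).1; omega
    have := (mul_eq_zero.1 h1).resolve_left h3
    omega
  have hPS := hr2 P a hP
  have h1 := hm Q e₀ hQ P hPS
  rw [hone P hPS, mul_one] at h1
  have h2 : r P = a := (over_unique (hr1 P hPS).1 (hr1 P hPS).2 hP.2).2
  rw [h2] at h1
  exact_mod_cast h1

end

end Pool.Agent.Q70.CH
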