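import Pool.Agent.Helper386.D5V.Helper386_FF_RR

/-!
# Zero-cycles modulo rational equivalence, via points and morphisms from curves

`k` is a field of characteristic zero (later algebraically closed).  A smooth projective curve is
given by its function field `K` (a function field of one variable over `k`), its points are the
places of `K`.
-/

set_option autoImplicit false

namespace Pool.Agent.Q70.CH

open FF

variable (k : Type) [Field k]

/-- A variety, seen through its set of points and, for every smooth projective curve `C_B` (given
by its function field `B`), the set of those maps from the points of `C_B` to the points of the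
variety that are induced by morphisms. -/
structure Sp where
  pts : Type
  mor : ∀ (B : Type) [Field B] [Algebra k B], Set (Place k B → pts)

variable {k}

/-- The smooth projective curve with function field `K`: its points are the places of `K`; the
morphisms from `C_B` are the constant ones and those given by `k`-embeddings `φ : K → B`, which
send a place `Q` of `B` to the place `P` of `K` with `Q.ord ∘ φ = e • P.ord`, `e > 0`. -/
def curve (K : Type) [Field K] [Algebra k K] : Sp k where
  pts := Place k K
  mor B _ _ := {s | (∃ P, ∀ Q, s Q = P) ∨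
    ∃ φ : K →ₐ[k] B, ∀ Q, ∃ e : ℕ, 0 < e ∧ ∀ f, Q.ord (φ f) = e * (s Q).ord f}

/-- The product of two varieties. -/
def Sp.prod (X Y : Sp k) : Sp k where
  pts := X.pts × Y.pts
  mor B _ _ := {s | (fun Q => (s Q).1) ∈ X.mor B ∧ (fun Q => (s Q).2) ∈ Y.mor B}

/-- The power `X^ι`. -/
def Sp.pow (X : Sp k) (ι : Type) : Sp k where
  pts := ι → X.pts
  mor B _ _ := {s | ∀ i, (fun Q => s Q i) ∈ X.mor B}

section

variable [CharZero k]

/-- The divisor of `t`, with rational coefficients. -/
noncomputable def qdiv {B : Type} [Field B] [Algebra k B] [IsFF k B] (t : B) : Place k B →₀ ℚ :=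
  (divisor k t).mapRange (fun n : ℤ => (n : ℚ)) Int.cast_zero

lemma qdiv_apply {B : Type} [Field B] [Algebra k B] [IsFF k B] (t : B) (Q : Place k B) :
    qdiv (k := k) t Q = (Q.ord t : ℚ) := rfl

/-- The space of zero-cycles (with rational coefficients) rationally equivalent to zero:
it is spanned by the push-forwards of the divisors of the functions `t` on smooth projective
curves `C_B` under morphisms `s : C_B → X`. -/
noncomputable def ratTriv (X : Sp k) : Submodule ℚ (X.pts →₀ ℚ) :=
  Submodule.span ℚ {z | ∃ (B : Type) (_ : Field B) (_ : Algebra k B) (_ : IsFF k B)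
    (s : Place k B → X.pts) (_ : s ∈ X.mor B) (t : B), t ≠ 0 ∧ z = (qdiv (k := k) t).mapDomain s}

/-- A map on points compatible with morphisms from curves. -/
def IsMap (X Y : Sp k) (F : X.pts → Y.pts) : Prop :=
  ∀ (B : Type) [Field B] [Algebra k B] [IsFF k B] (s : Place k B → X.pts), s ∈ X.mor B →
    (fun Q => F (s Q)) ∈ Y.mor B

lemma mapDomain_mem {X Y : Sp k} {F : X.pts → Y.pts} (hF : IsMap X Y F) {z : X.pts →₀ ℚ}
    (hz : z ∈ ratTriv X) : z.mapDomain F ∈ ratTriv Y := by
  have h : ratTriv X ≤ (ratTriv Y).comap (Finsupp.lmapDomain ℚ ℚ F) := by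
    unfold ratTriv
    rw [Submodule.span_le]
    rintro _ ⟨B, _, _, _, s, hs, t, ht, rfl⟩
    rw [SetLike.mem_coe, Submodule.mem_comap]
    refine Submodule.subset_span ⟨B, _, _, inferInstance, fun Q => F (s Q), hF B s hs, t, ht, ?_⟩
    change Finsupp.mapDomain F (Finsupp.mapDomain s _) = _
    rw [← Finsupp.mapDomain_comp]
    rfl
  exact h hz

end

end Pool.Agent.Q70.CH
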