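import Pool.Agent.Q70.CH.Gal
import Pool.Agent.Q70.CH.Space
import Pool.Agent.Helper386.D5V.Helper386_FF_Riemann

/-!
# Linearly equivalent effective divisors on a curve give the same symmetrized zero-cycle on the
powers of the curve.
-/

set_option autoImplicit false
set_option linter.overlappingInstances false
set_option linter.unusedSectionVars false

namespace Pool.Agent.Q70.CH

open FF IntermediateField Module Pool.Agent.W603.LV Pool.Agent.W619.PQ

section

open Classical in
/-- the number of occurrences of `P` in the family `x` -/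
noncomputable def cnt {ι α : Type} [Fintype ι] (x : ι → α) (P : α) : ℕ :=
  (Finset.univ.filter fun i => x i = P).card

lemma exists_perm {ι α : Type} [Fintype ι] (t y : ι → α) (h : ∀ P, cnt t P = cnt y P) :
    ∃ π : Equiv.Perm ι, ∀ i, t i = y (π i) := by
  classical
  have h1 : ∀ P, Nonempty ({a // t a = P} ≃ {b // y b = P}) := by
    intro P
    refine ⟨Fintype.equivOfCardEq ?_⟩
    rw [Fintype.card_subtype, Fintype.card_subtype]
    have h2 := h P
    unfold cnt at h2
    convert h2
  let e : ∀ P, {a // t a = P} ≃ {b // y b = P} := fun P => Classical.choice (h1 P)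
  refine ⟨Equiv.ofFiberEquiv e, fun i => ?_⟩
  exact (Equiv.ofFiberEquiv_map e i).symm

lemma cnt_sum {ι α : Type} [Fintype ι] (x : ι → α) (S : Finset α) (hS : ∀ i, x i ∈ S) :
    ∑ P ∈ S, cnt x P = Fintype.card ι := by
  classical
  rw [← Finset.card_univ, Finset.card_eq_sum_card_fiberwise (f := x) (t := S) fun i _ => hS i]
  apply Finset.sum_congr rfl
  intro P _
  unfold cnt
  congr

lemma cnt_eq_count {ι α : Type} [Fintype ι] [DecidableEq α] (x : ι → α) (P : α) :
    cnt x P = (Finset.univ.val.map x).count P := by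
  classical
  unfold cnt
  rw [Multiset.count_map, ← Finset.filter_val, ← Finset.card_def]
  congr 1
  ext i
  simp [eq_comm]

/-- the symmetrized zero-cycle of a tuple -/
noncomputable def symc {ι α : Type} [Fintype ι] [DecidableEq ι] (x : ι → α) : (ι → α) →₀ ℚ :=
  ∑ π : Equiv.Perm ι, Finsupp.single (fun i => x (π i)) 1

lemma symc_perm {ι α : Type} [Fintype ι] [DecidableEq ι] {t y : ι → α} (π : Equiv.Perm ι)
    (h : ∀ i, t i = y (π i)) : symc t = symc y := by
  unfold symc
  refine Fintype.sum_equiv (Equiv.mulLeft π) _ _ fun ρ => ?_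
  congr 1
  ext i
  exact h (ρ i)

end

section

variable {k : Type} [Field k] [CharZero k]

lemma isMap_reindex (X : Sp k) {ι κ : Type} (f : κ → ι) :
    IsMap (X.pow ι) (X.pow κ) (fun v i => v (f i)) :=
  fun _ _ _ _ _ hs i => hs (f i)

/-- The place `g = 0` of the rational function field `k(h)`, for `g = h` or `g = h⁻¹`. -/
theorem exists_zero_place {F : Type} [Field F] [Algebra k F] [IsFF k F] (g : F)
    (hg : Transcendental k g) (htop : k⟮g⟯ = ⊤) [IsAlgClosed k] :
    ∃ p : Place k F, p.ord g = 1 ∧ ∀ w : Place k F, 0 < w.ord g → w = p := by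
  classical
  obtain ⟨S, hS, -, hsum⟩ := zeros hg
  have h1 : finrank k⟮g⟯ F = 1 := by
    rw [htop]
    exact IntermediateField.finrank_top
  rw [h1] at hsum
  have hpos : ∀ w ∈ S, 1 ≤ (w.ord g).toNat * w.deg := by
    intro w hw
    have := (hS w).1 hw
    rw [deg_one w, mul_one]
    omega
  have hcard : S.card = 1 := by
    have h2 : S.card ≤ 1 := by
      calc S.card = ∑ w ∈ S, 1 := by simp
        _ ≤ ∑ w ∈ S, (w.ord g).toNat * w.deg := Finset.sum_le_sum hpos
        _ = 1 := hsum
    have h3 : S.card ≠ 0 := by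
      intro h
      rw [Finset.card_eq_zero] at h
      rw [h, Finset.sum_empty] at hsum
      omega
    omega
  obtain ⟨p, hp⟩ := Finset.card_eq_one.1 hcard
  refine ⟨p, ?_, ?_⟩
  · rw [hp, Finset.sum_singleton, deg_one p, mul_one] at hsum
    have := (hS p).1 (by rw [hp]; exact Finset.mem_singleton_self p)
    omega
  · intro w hw
    have := (hS w).2 hw
    rw [hp] at this
    exact Finset.mem_singleton.1 this

variable [IsAlgClosed k]

/-- counting for the zeros of `g` -/
theorem cnt_below {F₀ K L : Type} [Field F₀] [Field K] [Field L] [Algebra k F₀] [Algebra k K]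
    [Algebra k L] [Algebra F₀ K] [Algebra F₀ L] [IsScalarTower k F₀ K] [IsScalarTower k F₀ L]
    [IsFF k F₀] [IsFF k K] [IsFF k L] [FiniteDimensional F₀ K] [FiniteDimensional F₀ L]
    {J : Type} [Fintype J] (φ : J → (K →ₐ[k] L)) (hJ : Fintype.card J = finrank F₀ K)
    (hφ : ∀ j f, φ j (algebraMap F₀ K f) = algebraMap F₀ L f)
    (hN : ∀ z : K, algebraMap F₀ L (Algebra.norm F₀ z) = ∏ j, φ j z)
    (g : F₀) (hg : Transcendental k g) (htop : k⟮g⟯ = ⊤) (Q : Place k L)
    (hQ : 0 < Q.ord (algebraMap F₀ L g)) (P : Place k K) :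
    (cnt (fun j => below (φ j) Q) P : ℤ) = max (P.ord (algebraMap F₀ K g)) 0 := by
  classical
  obtain ⟨p, hp1, hp2⟩ := exists_zero_place g hg htop
  have hover : ∀ (E : Type) [Field E] [Algebra k E] [Algebra F₀ E] [IsScalarTower k F₀ E]
      [IsFF k E] (w : Place k E), 0 < w.ord (algebraMap F₀ E g) →
      Over w p (w.ord (algebraMap F₀ E g)).toNat := by
    intro E _ _ _ _ _ w hw
    obtain ⟨p', e, he, h⟩ := exists_below (IsScalarTower.toAlgHom k F₀ E) w
    have h1 : w.ord (algebraMap F₀ E g) = e * p'.ord g := h g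
    have h2 : 0 < p'.ord g := by
      by_contra hc
      push Not at hc
      have : (e : ℤ) * p'.ord g ≤ 0 := mul_nonpos_of_nonneg_of_nonpos (by positivity) hc
      omega
    have h3 := hp2 p' h2
    subst h3
    rw [hp1, mul_one] at h1
    rw [h1, Int.toNat_natCast]
    exact ⟨he, h⟩
  rcases le_or_gt (P.ord (algebraMap F₀ K g)) 0 with hP | hP
  · rw [max_eq_right hP]
    have : cnt (fun j => below (φ j) Q) P = 0 := by
      unfold cnt
      rw [Finset.card_eq_zero, Finset.filter_eq_empty_iff]
      intro j _ hj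
      change below (φ j) Q = P at hj
      obtain ⟨e, he, h⟩ := below_spec (φ j) Q
      have h1 := h (algebraMap F₀ K g)
      rw [hφ, hj] at h1
      have : (e : ℤ) * P.ord (algebraMap F₀ K g) ≤ 0 :=
        mul_nonpos_of_nonneg_of_nonpos (by positivity) hP
      omega
    rw [this]; rfl
  · rw [max_eq_left hP.le]
    have h1 := card_below φ hJ hφ hN Q p _ (hover L Q hQ) P _ (hover K P hP)
    unfold cnt
    rw [h1]
    omega

/-- **Linearly equivalent effective divisors have the same symmetrized zero-cycle**: transcendental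
case. -/
theorem symc_sub_mem_of_transcendental {K : Type} [Field K] [Algebra k K] [IsFF k K] {ι : Type}
    [Fintype ι] [DecidableEq ι] (x y : ι → Place k K) (h : K) (hh : Transcendental k h)
    (hdiv : ∀ P : Place k K, P.ord h = (cnt y P : ℤ) - cnt x P) :
    symc y - symc x ∈ ratTriv ((curve (k := k) K).pow ι) := by
  classical
  -- the rational function field
  let F₀ := k⟮h⟯
  have hfin : FiniteDimensional F₀ K := IsFF.finite hh
  let g : F₀ := AdjoinSimple.gen k h
  have hgK : algebraMap F₀ K g = h := AdjoinSimple.algebraMap_gen k h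
  have hg : Transcendental k g := by
    intro hc
    apply hh
    rw [← hgK]
    exact hc.algebraMap
  have htop : k⟮g⟯ = ⊤ := by
    apply IntermediateField.lift_injective F₀
    rw [IntermediateField.lift_adjoin_simple, IntermediateField.lift_top]
    rfl
  have hF₀ : IsFF k F₀ := by
    apply IsFF.of_finite hg
    rw [htop]
    exact Module.Finite.of_surjective (Algebra.linearMap (⊤ : IntermediateField k F₀) F₀)
      (fun x => ⟨⟨x, trivial⟩, rfl⟩)
  have hg0 : g ≠ 0 := by
    intro hc
    rw [hc] at hg
    exact hg isAlgebraic_zero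
  have hgi : Transcendental k g⁻¹ := by
    intro hc
    apply hg
    simpa using hc.inv
  have htopi : k⟮g⁻¹⟯ = ⊤ := by rw [adjoin_inv, htop]
  obtain ⟨L, _, _, _, _, _, _, J, _, φ, hJ, hφ, hN⟩ := exists_conjugates (k := k) F₀ K
  let hL : L := algebraMap F₀ L g
  have hL0 : hL ≠ 0 := by simpa [hL] using hg0
  have hzero : ∀ Q : Place k L, 0 < Q.ord hL → ∀ P : Place k K,
      (cnt (fun j => below (φ j) Q) P : ℤ) = max (P.ord h) 0 := by
    intro Q hQ P
    rw [cnt_below φ hJ hφ hN g hg htop Q hQ P, hgK]
  have hpole : ∀ Q : Place k L, Q.ord hL < 0 → ∀ P : Place k K,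
      (cnt (fun j => below (φ j) Q) P : ℤ) = max (- P.ord h) 0 := by
    intro Q hQ P
    have h1 : 0 < Q.ord (algebraMap F₀ L g⁻¹) := by
      rw [map_inv₀, Q.ord_inv]
      change 0 < - Q.ord hL
      omega
    rw [cnt_below φ hJ hφ hN g⁻¹ hgi htopi Q h1 P, map_inv₀, hgK, P.ord_inv]
  -- the function `h` has zeros on `L`
  have hLt : Transcendental k hL := by
    intro hc
    apply hg
    exact (isAlgebraic_algebraMap_iff (algebraMap F₀ L).injective).1 hc
  obtain ⟨S, hS, hS1, hS2⟩ := zeros hLt
  have hLfin := IsFF.finite hLt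
  have hSne : S.Nonempty := by
    rw [Finset.nonempty_iff_ne_empty]
    rintro rfl
    rw [Finset.sum_empty] at hS2
    have : 0 < finrank k⟮hL⟯ L := finrank_pos
    omega
  obtain ⟨Q₀, hQ₀⟩ := hSne
  have hQ₀' := (hS Q₀).1 hQ₀
  -- the common part
  let b : J → Place k K := fun j => below (φ j) Q₀
  let my : Multiset (Place k K) := Finset.univ.val.map y
  let mb : Multiset (Place k K) := Finset.univ.val.map b
  have hle : mb ≤ my := by
    rw [Multiset.le_iff_count]
    intro P
    rw [← cnt_eq_count, ← cnt_eq_count]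
    have h1 := hzero Q₀ hQ₀' P
    have h2 := hdiv P
    have : (cnt b P : ℤ) ≤ cnt y P := by
      rw [h1, h2]
      apply max_le <;> omega
    exact_mod_cast this
  let c : Multiset (Place k K) := my - mb
  let M := c.ToType
  let u : M → Place k K := fun m => m.1
  have hu : ∀ P, (cnt u P : ℤ) = cnt y P - max (P.ord h) 0 := by
    intro P
    have h1 : cnt u P = c.count P := by
      rw [cnt_eq_count]
      congr 1
      exact Multiset.map_univ_coe c
    rw [h1]
    have h2 : c.count P = my.count P - mb.count P := Multiset.count_sub P my mb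
    rw [h2, ← cnt_eq_count, ← cnt_eq_count]
    have h3 := hzero Q₀ hQ₀' P
    have h4 : cnt b P ≤ cnt y P := by
      have := Multiset.le_iff_count.1 hle P
      rwa [← cnt_eq_count, ← cnt_eq_count] at this
    have h5 : cnt b P = cnt (fun j => below (φ j) Q₀) P := rfl
    rw [← h5] at h3
    rw [← h3]
    push_cast [h4]
    ring
  have hcard : Fintype.card ι = Fintype.card (J ⊕ M) := by
    rw [Fintype.card_sum]
    have h1 : Multiset.card c = Multiset.card my - Multiset.card mb := Multiset.card_sub hle
    have h2 : Multiset.card my = Fintype.card ι := by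
      rw [Multiset.card_map]; rfl
    have h3 : Multiset.card mb = Fintype.card J := by
      rw [Multiset.card_map]; rfl
    have h4 : Fintype.card M = Multiset.card c := Multiset.card_coe c
    have h5 := Multiset.card_le_card hle
    omega
  let e : ι ≃ J ⊕ M := Fintype.equivOfCardEq hcard
  -- the test curve
  let s : Place k L → (ι → Place k K) := fun Q i => Sum.elim (fun j => below (φ j) Q) u (e i)
  have hs : s ∈ ((curve (k := k) K).pow ι).mor L := by
    intro i
    rcases hei : e i with j | m
    · right
      refine ⟨φ j, fun Q => ?_⟩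
      have : s Q i = below (φ j) Q := by simp only [s, hei, Sum.elim_inl]
      change ∃ e : ℕ, 0 < e ∧ ∀ f, Q.ord (φ j f) = e * (s Q i).ord f
      rw [this]
      exact below_spec (φ j) Q
    · left
      refine ⟨u m, fun Q => ?_⟩
      simp only [s, hei, Sum.elim_inr]
  have hcnt : ∀ (Q : Place k L) (P : Place k K), cnt (s Q) P = cnt (fun j => below (φ j) Q) P + cnt u P := by
    intro Q P
    unfold cnt
    rw [← Finset.card_map e.toEmbedding]
    have h1 : (Finset.univ.filter fun i => s Q i = P).map e.toEmbedding =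
        (Finset.univ.filter fun j => below (φ j) Q = P).disjSum (Finset.univ.filter fun m => u m = P) := by
      ext a
      simp only [Finset.mem_map, Finset.mem_filter, Finset.mem_univ, true_and, Equiv.coe_toEmbedding,
        Finset.mem_disjSum]
      constructor
      · rintro ⟨i, hi, rfl⟩
        rcases hei : e i with j | m
        · left
          refine ⟨j, ?_, rfl⟩
          simpa only [s, hei, Sum.elim_inl] using hi
        · right
          refine ⟨m, ?_, rfl⟩
          simpa only [s, hei, Sum.elim_inr] using hi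
      · rintro (⟨j, hj, rfl⟩ | ⟨m, hm, rfl⟩)
        · refine ⟨e.symm (Sum.inl j), ?_, e.apply_symm_apply _⟩
          simpa only [s, Equiv.apply_symm_apply, Sum.elim_inl] using hj
        · refine ⟨e.symm (Sum.inr m), ?_, e.apply_symm_apply _⟩
          simpa only [s, Equiv.apply_symm_apply, Sum.elim_inr] using hm
    rw [h1, Finset.card_disjSum]
  have hsz : ∀ Q : Place k L, 0 < Q.ord hL → symc (s Q) = symc y := by
    intro Q hQ
    obtain ⟨π, hπ⟩ := exists_perm (s Q) y (by
      intro P
      have h1 := hzero Q hQ P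
      have h2 := hu P
      have h3 := hcnt Q P
      zify at h3 ⊢
      rw [h3, h1, h2]; ring)
    exact symc_perm π hπ
  have hsp : ∀ Q : Place k L, Q.ord hL < 0 → symc (s Q) = symc x := by
    intro Q hQ
    obtain ⟨π, hπ⟩ := exists_perm (s Q) x (by
      intro P
      have h1 := hpole Q hQ P
      have h2 := hu P
      have h3 := hcnt Q P
      have h4 := hdiv P
      zify at h3 ⊢
      rw [h3, h1, h2]
      rcases le_total (P.ord h) 0 with h5 | h5
      · rw [max_eq_left (by omega), max_eq_right h5]; omega
      · rw [max_eq_right (by omega), max_eq_left h5]; omega)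
    exact symc_perm π hπ
  -- the relation
  have hz : (qdiv (k := k) hL).mapDomain s ∈ ratTriv ((curve (k := k) K).pow ι) :=
    Submodule.subset_span ⟨L, _, _, inferInstance, s, hs, hL, hL0, rfl⟩
  have hsym : ∑ π : Equiv.Perm ι, ((qdiv (k := k) hL).mapDomain s).mapDomain (fun v i => v (π i))
      ∈ ratTriv ((curve (k := k) K).pow ι) :=
    Submodule.sum_mem _ fun π _ => mapDomain_mem (isMap_reindex (curve K) π) hz
  have hcomp : ∑ π : Equiv.Perm ι, ((qdiv (k := k) hL).mapDomain s).mapDomain (fun v i => v (π i))
      = (qdiv (k := k) hL).sum fun Q n => n • symc (s Q) := by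
    have h1 : ∀ π : Equiv.Perm ι, ((qdiv (k := k) hL).mapDomain s).mapDomain (fun v i => v (π i))
        = (qdiv (k := k) hL).sum fun Q n => n • Finsupp.single (fun i => s Q (π i)) 1 := by
      intro π
      rw [← Finsupp.mapDomain_comp]
      unfold Finsupp.mapDomain
      apply Finsupp.sum_congr
      intro Q _
      rw [Finsupp.smul_single, smul_eq_mul, mul_one]
      rfl
    simp only [h1]
    unfold Finsupp.sum
    rw [Finset.sum_comm]
    apply Finset.sum_congr rfl
    intro Q _
    rw [← Finset.smul_sum]
    rfl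
  have hsym2 : (qdiv (k := k) hL).sum (fun Q n => n • symc (s Q)) ∈
      ratTriv ((curve (k := k) K).pow ι) := by
    rw [← hcomp]; exact hsym
  -- split into zeros and poles
  let D : ℚ := ∑ Q ∈ (qdiv (k := k) hL).support.filter (fun Q => 0 < Q.ord hL), (Q.ord hL : ℚ)
  have htot : ∑ Q ∈ (qdiv (k := k) hL).support, (Q.ord hL : ℚ) = 0 := by
    have h1 := ddeg_divisor (k := k) (K := L) hL
    unfold ddeg at h1
    have h2 : (divisor k hL).sum (fun P n => n * (P.deg : ℤ)) = ∑ Q ∈ (divisor k hL).support, Q.ord hL := by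
      unfold Finsupp.sum
      apply Finset.sum_congr rfl
      intro Q _
      change (divisor k hL) Q * (Q.deg : ℤ) = _
      rw [deg_one Q, divisor_apply]; simp
    rw [h2] at h1
    have h3 : (qdiv (k := k) hL).support = (divisor k hL).support := by
      ext Q
      rw [Finsupp.mem_support_iff, Finsupp.mem_support_iff, qdiv_apply, divisor_apply]
      simp
    rw [h3]
    exact_mod_cast h1
  have hpoles : ∑ Q ∈ (qdiv (k := k) hL).support.filter (fun Q => ¬ 0 < Q.ord hL), (Q.ord hL : ℚ) = -D := by
    have := Finset.sum_filter_add_sum_filter_not (qdiv (k := k) hL).support (fun Q => 0 < Q.ord hL)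
      (fun Q => (Q.ord hL : ℚ))
    rw [htot] at this
    linarith
  have hsplit : (qdiv (k := k) hL).sum (fun Q n => n • symc (s Q)) = D • symc y - D • symc x := by
    unfold Finsupp.sum
    rw [← Finset.sum_filter_add_sum_filter_not (qdiv (k := k) hL).support (fun Q => 0 < Q.ord hL)]
    have h1 : ∑ Q ∈ (qdiv (k := k) hL).support.filter (fun Q => 0 < Q.ord hL),
        (qdiv (k := k) hL) Q • symc (s Q) = D • symc y := by
      rw [Finset.sum_smul]
      apply Finset.sum_congr rfl
      intro Q hQ
      rw [Finset.mem_filter] at hQ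
      rw [hsz Q hQ.2, qdiv_apply]
    have h2 : ∑ Q ∈ (qdiv (k := k) hL).support.filter (fun Q => ¬ 0 < Q.ord hL),
        (qdiv (k := k) hL) Q • symc (s Q) = (-D) • symc x := by
      rw [← hpoles, Finset.sum_smul]
      apply Finset.sum_congr rfl
      intro Q hQ
      rw [Finset.mem_filter, Finsupp.mem_support_iff, qdiv_apply] at hQ
      have h3 : Q.ord hL ≠ 0 := by
        intro hc
        apply hQ.1
        rw [hc]; simp
      rw [hsp Q (by have := hQ.2; omega), qdiv_apply]
    rw [h1, h2, neg_smul, sub_eq_add_neg]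
  have hD : 0 < D := by
    apply Finset.sum_pos
    · intro Q hQ
      rw [Finset.mem_filter] at hQ
      exact_mod_cast hQ.2
    · refine ⟨Q₀, ?_⟩
      rw [Finset.mem_filter, Finsupp.mem_support_iff, qdiv_apply]
      refine ⟨?_, hQ₀'⟩
      have : Q₀.ord hL ≠ 0 := by omega
      exact_mod_cast this
  rw [hsplit, ← smul_sub] at hsym2
  have h9 : symc y - symc x = D⁻¹ • (D • (symc y - symc x)) := by
    rw [smul_smul, inv_mul_cancel₀ hD.ne', one_smul]
  rw [h9]
  exact Submodule.smul_mem _ D⁻¹ hsym2

/-- **Linearly equivalent effective divisors have the same symmetrized zero-cycle.** -/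
theorem symc_sub_mem {K : Type} [Field K] [Algebra k K] [IsFF k K] {ι : Type}
    [Fintype ι] [DecidableEq ι] (x y : ι → Place k K) (h : K) (h0 : h ≠ 0)
    (hdiv : ∀ P : Place k K, P.ord h = (cnt y P : ℤ) - cnt x P) :
    symc y - symc x ∈ ratTriv ((curve (k := k) K).pow ι) := by
  by_cases hh : IsAlgebraic k h
  · obtain ⟨π, hπ⟩ := exists_perm y x (by
      intro P
      have h1 := hdiv P
      rw [P.ord_eq_zero_of_isAlgebraic h0 hh] at h1
      omega)
    rw [symc_perm π hπ, sub_self]
    exact Submodule.zero_mem _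
  · exact symc_sub_mem_of_transcendental x y h hh hdiv

end

end Pool.Agent.Q70.CH
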