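import Pool.Agent.Q70.CH.LinEq

/-!
# Moving a point into an effective divisor of degree `> g`, and its effect on zero-cycles.
-/

set_option autoImplicit false
set_option linter.overlappingInstances false
set_option linter.unusedSectionVars false

namespace Pool.Agent.Q70.CH

open FF IntermediateField Module Pool.Agent.W603.LV Pool.Agent.W619.PQ

variable {k : Type} [Field k] [CharZero k]

/-- `g` is the genus of the function field `K` (of the smooth projective curve with function field
`K` over the algebraically closed field `k`): by Riemann's theorem, it is the integer `g` with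
`ℓ(D) = deg D + 1 - g` for all divisors `D` of sufficiently large degree. -/
def IsGenus (k : Type) [Field k] (K : Type) [Field K] [Algebra k K] (g : ℕ) : Prop :=
  ∃ N : ℤ, ∀ D : Place k K →₀ ℤ, N ≤ (D.sum fun _ m => m) →
    (finrank k (LL D) : ℤ) = (D.sum fun _ m => m) + 1 - g

variable [IsAlgClosed k] {K : Type} [Field K] [Algebra k K] [IsFF k K]

lemma ddeg_eq_sum (D : Place k K →₀ ℤ) : ddeg D = D.sum fun _ m => m := by
  unfold ddeg
  apply Finsupp.sum_congr
  intro P _
  rw [deg_one P]; simp

theorem riemann_ineq {g : ℕ} (hg : IsGenus k K g) (D : Place k K →₀ ℤ) :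
    ddeg D + 1 - g ≤ ell D := by
  obtain ⟨γ, N, h1, h2⟩ := riemann k K
  obtain ⟨N', h3⟩ := hg
  obtain ⟨P, -⟩ := exists_place (k := k) (K := K)
  let E : Place k K →₀ ℤ := Finsupp.single P (max N N')
  have hE : ddeg E = max N N' := by
    rw [ddeg_single, deg_one P]; simp
  have h4 := h2 E (by rw [hE]; exact le_max_left _ _)
  have h5 : ell E = ddeg E + 1 - g := by
    have := h3 E (by rw [← ddeg_eq_sum, hE]; exact le_max_right _ _)
    rw [← ddeg_eq_sum] at this
    exact this
  have h6 := h1 D
  omega

lemma sum_single_apply {ι α : Type} [Fintype ι] (x : ι → α) (P : α) :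
    (∑ i, Finsupp.single (x i) (1 : ℤ)) P = cnt x P := by
  classical
  rw [Finsupp.finsetSum_apply]
  simp only [Finsupp.single_apply]
  unfold cnt
  rw [Finset.sum_boole]

/-- If `|ι| > g` then any tuple can be replaced, up to rational equivalence of the symmetrized
cycle, by a tuple with prescribed coordinate `i₀`. -/
theorem exists_move {g : ℕ} (hg : IsGenus k K g) {ι : Type} [Fintype ι] [DecidableEq ι]
    (hι : g < Fintype.card ι) (x : ι → Place k K) (i₀ : ι) (o : Place k K) :
    ∃ z : ι → Place k K, z i₀ = o ∧ symc z - symc x ∈ ratTriv ((curve (k := k) K).pow ι) := by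
  classical
  let D : Place k K →₀ ℤ := ∑ i, Finsupp.single (x i) (1 : ℤ) - Finsupp.single o 1
  have hD : ddeg D = Fintype.card ι - 1 := by
    have h1 : ddeg (∑ i, Finsupp.single (x i) (1 : ℤ) : Place k K →₀ ℤ) = Fintype.card ι := by
      have h2 : ∀ s : Finset ι, ddeg (∑ i ∈ s, Finsupp.single (x i) (1 : ℤ) : Place k K →₀ ℤ) = s.card := by
        intro s
        induction s using Finset.induction_on with
        | empty => simp [ddeg_zero]
        | insert a s ha ih =>
          rw [Finset.sum_insert ha, ddeg_add, ih, ddeg_single, deg_one, Finset.card_insert_of_notMem ha]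
          push_cast; ring
      rw [h2 Finset.univ, Finset.card_univ]
    change ddeg (_ - _) = _
    rw [ddeg_sub, h1, ddeg_single, deg_one]
    push_cast; ring
  have hell : 0 < ell D := by
    have := riemann_ineq hg D
    omega
  obtain ⟨f, hf, hf0⟩ := exists_ne_zero_of_ell_pos hell
  rw [mem_LL' hf0] at hf
  -- the residual effective divisor
  let E : Place k K →₀ ℕ := (divisor k f + D).mapRange Int.toNat rfl
  have hE : ∀ P, (E P : ℤ) = P.ord f + (cnt x P - if o = P then 1 else 0) := by
    intro P
    have h1 := hf P
    have h2 : (E P : ℤ) = (divisor k f + D) P := by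
      change (((divisor k f + D) P).toNat : ℤ) = _
      exact Int.toNat_of_nonneg h1
    rw [h2, Finsupp.add_apply, divisor_apply]
    congr 1
    change (∑ i, Finsupp.single (x i) (1 : ℤ)) P - Finsupp.single o (1 : ℤ) P = _
    rw [sum_single_apply, Finsupp.single_apply]
  let m : Multiset (Place k K) := Finsupp.toMultiset E
  have hmc : ∀ P, m.count P = E P := fun P => Finsupp.count_toMultiset E P
  have hcard : Multiset.card m = Fintype.card ι - 1 := by
    have h1 : Multiset.card m = E.sum fun _ n => n := Finsupp.card_toMultiset E
    have h2 : ddeg (divisor k f + D) = (E.sum fun _ n => n : ℕ) := by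
      unfold ddeg
      have h3 : E.support = (divisor k f + D).support := by
        ext P
        rw [Finsupp.mem_support_iff, Finsupp.mem_support_iff]
        change ((divisor k f + D) P).toNat ≠ 0 ↔ _
        have := hf P
        change 0 ≤ (divisor k f + D) P at this
        omega
      unfold Finsupp.sum
      rw [← h3]
      push_cast
      apply Finset.sum_congr rfl
      intro P _
      change (divisor k f + D) P * (P.deg : ℤ) = _
      rw [deg_one P]
      have := hf P
      change 0 ≤ (divisor k f + D) P at this
      change _ = (((divisor k f + D) P).toNat : ℤ)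
      rw [Int.toNat_of_nonneg this]; simp
    rw [ddeg_add, ddeg_divisor, zero_add, hD] at h2
    omega
  have hcard2 : Fintype.card {i // i ≠ i₀} = Fintype.card m.ToType := by
    rw [Multiset.card_coe, hcard, Fintype.card_subtype_compl, Fintype.card_subtype_eq]
  let e : {i // i ≠ i₀} ≃ m.ToType := Fintype.equivOfCardEq hcard2
  let z : ι → Place k K := fun i => if h : i = i₀ then o else (e ⟨i, h⟩).1
  have hz0 : z i₀ = o := by simp [z]
  have hcz : ∀ P, (cnt z P : ℤ) = E P + if o = P then 1 else 0 := by
    intro P
    have h1 : cnt z P = cnt (fun i : {i // i ≠ i₀} => (e i).1) P + if o = P then 1 else 0 := by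
      unfold cnt
      rw [← Finset.card_filter_add_card_filter_not (fun i => i ≠ i₀)]
      congr 1
      · rw [← Finset.card_map (Function.Embedding.subtype _)]
        congr 1
        ext i
        simp only [Finset.mem_filter, Finset.mem_univ, true_and, Finset.mem_map,
          Function.Embedding.subtype_apply, Subtype.exists, exists_and_right, exists_eq_right]
        constructor
        · rintro ⟨h2, h3⟩
          refine ⟨h3, ?_⟩
          simpa only [z, dif_neg h3] using h2
        · rintro ⟨h3, h2⟩
          refine ⟨?_, h3⟩
          simpa only [z, dif_neg h3] using h2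
      · by_cases h : o = P
        · rw [if_pos h, Finset.card_eq_one]
          refine ⟨i₀, ?_⟩
          ext i
          simp only [Finset.mem_filter, Finset.mem_univ, true_and, Finset.mem_singleton, not_not]
          constructor
          · exact fun h => h.2
          · rintro rfl
            exact ⟨by rw [hz0, h], rfl⟩
        · rw [if_neg h, Finset.card_eq_zero, Finset.filter_eq_empty_iff]
          intro i hi hc
          rw [not_not] at hc
          rw [Finset.mem_filter, hc, hz0] at hi
          exact h hi.2
    have h2 : cnt (fun i : {i // i ≠ i₀} => (e i).1) P = E P := by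
      rw [cnt_eq_count, ← hmc P]
      congr 1
      have h3 : (Finset.univ.val.map fun i : {i // i ≠ i₀} => (e i).1) =
          (Finset.univ.val.map e).map (fun m => m.1) := by
        rw [Multiset.map_map]; rfl
      rw [h3]
      have h4 : (Finset.univ.val.map e) = (Finset.univ : Finset m.ToType).val := by
        have := Finset.map_univ_equiv e
        rw [← this, Finset.map_val]
        rfl
      rw [h4]
      exact Multiset.map_univ_coe m
    rw [h1, h2]
    push_cast
    rfl
  refine ⟨z, hz0, symc_sub_mem x z f hf0 ?_⟩
  intro P
  rw [hcz P, hE P]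
  ring

end Pool.Agent.Q70.CH
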