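import Pool.Agent.Q70.CH.Prod2
import Pool.Agent.Q70.CH.Comb2

/-!
# Zero-cycles on symmetric squares of curves: Voisin's conjecture
-/

set_option autoImplicit false
set_option linter.overlappingInstances false
set_option linter.unusedSectionVars false

namespace Pool.Agent.Q70.CH

open FF Equiv

section tup

variable {A : Type} {n : ℕ}

/-- a tuple of pairs from a function on the positions -/
def tup (x : Fin n × Fin 2 → A) : Fin n → A × A := fun i => (x (i, 0), x (i, 1))

/-- the coordinates of a tuple of pairs -/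
def crd (v : Fin n → A × A) : Fin n × Fin 2 → A := fun p => if p.2 = 0 then (v p.1).1 else (v p.1).2

/-- exchange of the two coordinates in the slots selected by `ε` -/
def swp (ε : Fin n → Bool) (v : Fin n → A × A) : Fin n → A × A :=
  fun i => if ε i then (v i).swap else v i

lemma tup_crd_wr (v : Fin n → A × A) (σ : Perm (Fin n)) (ε : Fin n → Bool) :
    tup (fun p => crd v (wr σ ε p)) = swp ε (fun i => v (σ i)) := by
  funext i
  unfold tup swp
  simp only [wr_apply]
  cases h : ε i
  · simp [sw_apply_false, crd]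
  · simp [sw_true_zero, sw_true_one, crd, Prod.swap]

lemma swp_swp (ε : Fin n → Bool) (v : Fin n → A × A) : swp ε (swp ε v) = v := by
  funext i
  unfold swp
  cases ε i <;> simp

lemma cross_swp (a : Fin n → (A × A) →₀ ℚ) (ha : ∀ i, (a i).mapDomain Prod.swap = a i)
    (ε : Fin n → Bool) : (cross a).mapDomain (swp ε) = cross a := by
  classical
  have hinj : Function.Injective (swp (A := A) ε) := by
    intro v w h
    rw [← swp_swp ε v, h, swp_swp]
  have hsw : ∀ i (p : A × A), a i p.swap = a i p := by
    intro i p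
    conv_lhs => rw [← ha i]
    exact Finsupp.mapDomain_apply Prod.swap_injective (a i) p
  ext w
  have h1 : (cross a).mapDomain (swp ε) w = cross a (swp ε w) := by
    conv_lhs => rw [← swp_swp ε w]
    exact Finsupp.mapDomain_apply hinj _ _
  rw [h1, cross_apply, cross_apply]
  apply Finset.prod_congr rfl
  intro i _
  unfold swp
  cases ε i
  · simp
  · simpa using hsw i (w i)

lemma mapDomain_apply' {α β : Type} [DecidableEq β] (f : α → β) (a : α →₀ ℚ) (w : β) :
    a.mapDomain f w = ∑ x ∈ a.support, if f x = w then a x else 0 := by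
  unfold Finsupp.mapDomain Finsupp.sum
  rw [Finsupp.finsetSum_apply]
  apply Finset.sum_congr rfl
  intro x _
  rw [Finsupp.single_apply]

lemma cross_map {X Y : Type} (f : X → Y) (a : Fin n → X →₀ ℚ) :
    cross (fun i => (a i).mapDomain f) = (cross a).mapDomain (fun v i => f (v i)) := by
  classical
  ext w
  rw [cross_apply]
  have h0 : (cross a).mapDomain (fun v i => f (v i)) w =
      ∑ v ∈ Fintype.piFinset (fun i => (a i).support),
        if (fun i => f (v i)) = w then ∏ i, a i (v i) else 0 := by
    unfold cross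
    rw [Finsupp.mapDomain_finsetSum, Finsupp.finsetSum_apply]
    apply Finset.sum_congr rfl
    intro v _
    rw [Finsupp.mapDomain_single, Finsupp.single_apply]
  rw [h0]
  simp only [mapDomain_apply']
  rw [Finset.prod_univ_sum]
  apply Finset.sum_congr rfl
  intro v _
  by_cases h : (fun i => f (v i)) = w
  · rw [if_pos h]
    apply Finset.prod_congr rfl
    intro i _
    rw [if_pos (congrFun h i)]
  · rw [if_neg h]
    have : ∃ i, ¬ f (v i) = w i := by
      by_contra hc
      push Not at hc
      exact h (funext hc)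
    obtain ⟨i, hi⟩ := this
    exact Finset.prod_eq_zero (Finset.mem_univ i) (if_neg hi)

/-- symmetrization over the positions in `P` -/
lemma sum_permsOn_tup (P : Finset (Fin n × Fin 2)) (x : Fin n × Fin 2 → A) :
    ∑ π ∈ permsOn' P, Finsupp.single (tup fun p => x (π p)) (1 : ℚ) =
      (symc (fun i : P => x i)).mapDomain
        (fun w => tup fun p => if h : p ∈ P then w ⟨p, h⟩ else x p) := by
  classical
  unfold symc
  rw [Finsupp.mapDomain_finsetSum]
  symm
  refine Finset.sum_bij (fun (ρ : Perm P) _ => Perm.ofSubtype ρ) ?_ ?_ ?_ ?_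
  · intro ρ _
    rw [mem_permsOn']
    intro i hi
    exact Perm.ofSubtype_apply_of_not_mem ρ hi
  · intro ρ _ ρ' _ h
    exact Perm.ofSubtype_injective h
  · intro π hπ
    rw [mem_permsOn'] at hπ
    have h1 : ∀ i, i ∈ P ↔ π i ∈ P := by
      intro i
      constructor
      · intro hi
        by_contra hc
        have h1 := hπ _ hc
        have h2 := π.injective h1
        rw [h2] at hc
        exact hc hi
      · intro hi
        by_contra hc
        rw [hπ i hc] at hi
        exact hc hi
    refine ⟨Perm.subtypePerm π (fun i => (h1 i).symm), Finset.mem_univ _, ?_⟩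
    apply Equiv.ext
    intro i
    by_cases hi : i ∈ P
    · rw [Perm.ofSubtype_apply_of_mem _ hi]; rfl
    · rw [Perm.ofSubtype_apply_of_not_mem _ hi, hπ i hi]
  · intro ρ _
    rw [Finsupp.mapDomain_single]
    congr 2
    funext i
    by_cases hi : i ∈ P
    · simp only [dif_pos hi, Perm.ofSubtype_apply_of_mem _ hi]
    · simp only [dif_neg hi, Perm.ofSubtype_apply_of_not_mem _ hi]

end tup

section main

variable {k : Type} [Field k] [CharZero k] {K : Type} [Field K] [Algebra k K] {n : ℕ}

omit [CharZero k] in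
lemma dite_Mc' {B : Type} [Field B] [Algebra k B] {ι : Type} [DecidableEq ι] {P : Finset ι}
    (s : Place k B → P → Place k K)
    (hs : ∀ i, (fun Q => s Q i) ∈ Mc k K B) (x : ι → Place k K) (i : ι) :
    (fun Q => if h : i ∈ P then s Q ⟨i, h⟩ else x i) ∈ Mc k K B := by
  by_cases hi : i ∈ P
  · simp only [dif_pos hi]
    exact hs ⟨i, hi⟩
  · simp only [dif_neg hi]
    exact const_Mc _

/-- symmetrization over more than `g` positions is killed by `DD`. -/
lemma DD_tup [IsAlgClosed k] [IsFF k K] {g : ℕ} (hg : IsGenus k K g) (o : Place k K)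
    (P : Finset (Fin n × Fin 2)) (hP : P.card = g + 1) (x : Fin n × Fin 2 → Place k K) :
    DD o o (List.finRange n) (∑ π ∈ permsOn' P, Finsupp.single (tup fun p => x (π p)) (1 : ℚ)) ∈
      TT k K K n := by
  classical
  have hne : P.Nonempty := Finset.card_pos.1 (by omega)
  obtain ⟨i₀, hi₀⟩ := hne
  obtain ⟨z, hz0, hz⟩ := exists_move hg (ι := P) (by rw [Fintype.card_coe, hP]; omega)
    (fun i => x i) ⟨i₀, hi₀⟩ o
  let Ψ : (P → Place k K) → (Fin n → Place k K × Place k K) :=
    fun w => tup fun p => if h : p ∈ P then w ⟨p, h⟩ else x p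
  have h1 : (symc z - symc (fun i : P => x i)).mapDomain Ψ ∈ TT k K K n := by
    refine mapDomain_mem (X := (curve (k := k) K).pow P)
      (Y := ((curve (k := k) K).prod (curve (k := k) K)).pow (Fin n)) (F := Ψ) ?_ hz
    intro B _ _ _ s hs
    change (fun Q => Ψ (s Q)) ∈ Mn k K K n B
    rw [mem_Mn]
    intro i
    exact ⟨dite_Mc' s hs x (i, 0), dite_Mc' s hs x (i, 1)⟩
  have h2 : (symc z - symc (fun i : P => x i)).mapDomain Ψ =
      (symc z).mapDomain Ψ - (symc (fun i : P => x i)).mapDomain Ψ :=
    map_sub (Finsupp.lmapDomain ℚ ℚ Ψ) _ _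
  have h3 : DD o o (List.finRange n) ((symc z).mapDomain Ψ) = 0 := by
    unfold symc
    rw [Finsupp.mapDomain_finsetSum, map_sum]
    apply Finset.sum_eq_zero
    intro π _
    rw [Finsupp.mapDomain_single]
    obtain ⟨⟨⟨i, b⟩, hp⟩, hpi⟩ : ∃ p : P, p = π.symm ⟨i₀, hi₀⟩ := ⟨_, rfl⟩
    have hz1 : z (π ⟨(i, b), hp⟩) = o := by
      rw [hpi, Equiv.apply_symm_apply, hz0]
    have hb : b = 0 ∨ b = 1 := by
      fin_cases b
      · exact Or.inl rfl
      · exact Or.inr rfl
    rcases hb with rfl | rfl
    · refine (DD_U1_aux o o i _ _ (Submodule.subset_span ⟨_, ?_, rfl⟩)).2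
        (List.mem_finRange _)
      simp only [Ψ, tup, dif_pos hp]
      exact hz1
    · refine (DD_U2_aux o o i _ _ (Submodule.subset_span ⟨_, ?_, rfl⟩)).2
        (List.mem_finRange _)
      simp only [Ψ, tup, dif_pos hp]
      exact hz1
  rw [sum_permsOn_tup]
  have h4 := DD_mem o o (List.finRange n) h1
  rw [h2, map_sub, h3, zero_sub] at h4
  exact (Submodule.neg_mem_iff _).1 h4

/-- **Voisin's conjecture for symmetric squares of curves**, for symmetric cycles on `C × C`. -/
theorem voisin_sym [IsAlgClosed k] [IsFF k K] {g : ℕ} (hg : IsGenus k K g)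
    (hn : g * (g - 1) < n * 2) (a : Fin n → (Place k K × Place k K) →₀ ℚ)
    (hs : ∀ i, (a i).mapDomain Prod.swap = a i)
    (h1 : ∀ i, (a i).mapDomain Prod.fst ∈ TC k K) :
    ∑ σ : Perm (Fin n), ((Perm.sign σ : ℤ) : ℚ) • cross (fun i => a (σ i)) ∈ TT k K K n := by
  classical
  have h2 : ∀ i, (a i).mapDomain Prod.snd ∈ TC k K := by
    intro i
    have : (a i).mapDomain Prod.snd = (a i).mapDomain Prod.fst := by
      conv_rhs => rw [← hs i]
      rw [← Finsupp.mapDomain_comp]
      rfl
    rw [this]; exact h1 i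
  obtain ⟨o, -⟩ := exists_place (k := k) (K := K)
  rw [← Submodule.ker_mkQ (TT k K K n), LinearMap.mem_ker]
  set q := (TT k K K n).mkQ with hq
  have hq0 : ∀ z, z ∈ TT k K K n → q z = 0 := by
    intro z hz
    rw [hq, ← LinearMap.mem_ker, Submodule.ker_mkQ]; exact hz
  set l := List.finRange n with hl
  have step : ∀ (σ : Perm (Fin n)) (ε : Fin n → Bool), q (cross (fun i => a (σ i))) =
      ∑ v ∈ (cross a).support, cross a v •
        q (DD o o l (Finsupp.single (tup fun p => crd v (wr σ ε p)) 1)) := by
    intro σ ε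
    have h3 : q (cross (fun i => a (σ i))) = q (DD o o l (cross (fun i => a (σ i)))) := by
      have h4 := hq0 _ (DD_sub_mem o o l (z := cross (fun i => a (σ i)))
        (fun i => e1_cross o i _ (h2 (σ i))) (fun i => e2_cross o i _ (h1 (σ i))))
      rw [map_sub, sub_eq_zero] at h4
      exact h4.symm
    have h5 : cross (fun i => a (σ i)) =
        ∑ v ∈ (cross a).support, cross a v •
          Finsupp.single (tup fun p => crd v (wr σ ε p)) (1 : ℚ) := by
      rw [← cross_swp (fun i => a (σ i)) (fun i => hs (σ i)) ε, cross_perm,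
        ← Finsupp.mapDomain_comp]
      unfold Finsupp.mapDomain Finsupp.sum
      apply Finset.sum_congr rfl
      intro v _
      rw [Finsupp.smul_single, smul_eq_mul, mul_one, tup_crd_wr]
      rfl
    rw [h3]
    conv_lhs => rw [h5]
    rw [map_sum, map_sum]
    apply Finset.sum_congr rfl
    intro v _
    rw [map_smul, map_smul]
  have h6 : ∀ σ : Perm (Fin n), (Fintype.card (Fin n → Bool) : ℚ) •
      q (((Perm.sign σ : ℤ) : ℚ) • cross (fun i => a (σ i))) =
      ∑ v ∈ (cross a).support, cross a v • (∑ ε : Fin n → Bool, ((Perm.sign σ : ℤ) : ℚ) •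
        q (DD o o l (Finsupp.single (tup fun p => crd v (wr σ ε p)) 1))) := by
    intro σ
    have h7 : ∑ ε : Fin n → Bool, q (cross (fun i => a (σ i))) =
        (Fintype.card (Fin n → Bool) : ℚ) • q (cross (fun i => a (σ i))) := by
      rw [Finset.sum_const, Finset.card_univ, ← Nat.cast_smul_eq_nsmul ℚ]
    rw [map_smul, smul_comm, ← h7, Finset.sum_congr rfl fun ε _ => step σ ε, Finset.sum_comm,
      Finset.smul_sum]
    apply Finset.sum_congr rfl
    intro v _
    rw [← Finset.smul_sum, ← Finset.smul_sum, smul_comm]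
  have h8 : (Fintype.card (Fin n → Bool) : ℚ) •
      q (∑ σ : Perm (Fin n), ((Perm.sign σ : ℤ) : ℚ) • cross (fun i => a (σ i))) = 0 := by
    rw [map_sum, Finset.smul_sum, Finset.sum_congr rfl fun σ _ => h6 σ, Finset.sum_comm]
    apply Finset.sum_eq_zero
    intro v _
    rw [← Finset.smul_sum]
    have key := pair_vanish (n := n) hn
      (fun ρ => q (DD o o l (Finsupp.single (tup fun p => crd v (ρ p)) 1)))
      (by
        intro σ P hP
        have := hq0 _ (DD_tup hg o P hP (fun p => crd v (σ p)))
        rw [map_sum, map_sum] at this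
        exact this)
    rw [key, smul_zero]
  rcases smul_eq_zero.1 h8 with h9 | h9
  · exfalso
    have : 0 < Fintype.card (Fin n → Bool) := Fintype.card_pos
    exact absurd h9 (by positivity)
  · exact h9

end main

end Pool.Agent.Q70.CH
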